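import Mathlib

set_option autoImplicit false

open scoped Nat

namespace Pool.Agent.Work.MP_47bae8_lc

/-- The shuffle of two languages: `t` is the word `w` with every letter marked by `true` (belongs to
the word of `L`) or `false` (belongs to the word of `M`). -/
def shuffle {A : Type} (L M : Set (List A)) : Set (List A) :=
  {w | ∃ t : List (A × Bool), t.map Prod.fst = w ∧
    (t.filter (fun p => p.2)).map Prod.fst ∈ L ∧ (t.filter (fun p => !p.2)).map Prod.fst ∈ M}

/-- The product (concatenation) of two languages. -/
def conc {A : Type} (L M : Set (List A)) : Set (List A) :=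
  {w | ∃ u ∈ L, ∃ v ∈ M, w = u ++ v}

/-- The intermixed languages over the alphabet `A`: the smallest class of languages that contains
the letters and is closed under complement, union, product and shuffle. -/
inductive Intermixed {A : Type} : Set (List A) → Prop
  | letter (a : A) : Intermixed {[a]}
  | compl {L : Set (List A)} : Intermixed L → Intermixed Lᶜ
  | union {L M : Set (List A)} : Intermixed L → Intermixed M → Intermixed (L ∪ M)
  | conc {L M : Set (List A)} : Intermixed L → Intermixed M → Intermixed (conc L M)
  | shuffle {L M : Set (List A)} : Intermixed L → Intermixed M → Intermixed (shuffle L M)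

/-- The syntactic congruence of a language. -/
def synCon {A : Type} (L : Set (List A)) : Con (FreeMonoid A) where
  r u v := ∀ s t : List A, s ++ u.toList ++ t ∈ L ↔ s ++ v.toList ++ t ∈ L
  iseqv := ⟨fun _ _ _ => Iff.rfl, fun h s t => (h s t).symm, fun h k s t => (h s t).trans (k s t)⟩
  mul' := by
    intro a b c d h k s t
    have h1 := h s (c.toList ++ t)
    have h2 := k (s ++ b.toList) t
    simp only [FreeMonoid.toList_mul, List.append_assoc] at h1 h2 ⊢
    exact h1.trans h2

/-- The syntactic monoid of a language. -/
abbrev Syn {A : Type} (L : Set (List A)) : Type := (synCon L).Quotient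

/-- The syntactic morphism. -/
def η {A : Type} (L : Set (List A)) : FreeMonoid A →* Syn L := (synCon L).mk'

/-- `ω`-terms: built from the empty word and variables (indexed by `ℕ`) by product and `ω`-power. -/
inductive OmegaTerm : Type
  | one : OmegaTerm
  | var : ℕ → OmegaTerm
  | mul : OmegaTerm → OmegaTerm → OmegaTerm
  | omega : OmegaTerm → OmegaTerm

/-- The value of an `ω`-term in a finite monoid `M` under an assignment of the variables. The
element `x ^ (card M)!` is the unique idempotent power of `x`. -/
noncomputable def OmegaTerm.eval {M : Type} [Monoid M] (v : ℕ → M) : OmegaTerm → M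
  | .one => 1
  | .var i => v i
  | .mul s t => s.eval v * t.eval v
  | .omega t => (t.eval v) ^ (Nat.card M)!

/-- The language `L` satisfies the identity `e.1 = e.2`: the two terms have the same value in the
syntactic monoid of `L` whenever every variable is replaced by the image of a letter or by `1`. -/
def Satisfies {A : Type} (L : Set (List A)) (e : OmegaTerm × OmegaTerm) : Prop :=
  ∀ v : ℕ → Syn L, (∀ i, v i = 1 ∨ ∃ a : A, v i = η L (FreeMonoid.of a)) →
    e.1.eval v = e.2.eval v

/-- The number of occurrences of variables in an `ω`-term. -/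
def OmegaTerm.size : OmegaTerm → ℕ
  | .one => 0
  | .var _ => 1
  | .mul s t => s.size + t.size
  | .omega t => t.size

/-- The power `t ^ j` of an `ω`-term. -/
def OmegaTerm.pow (t : OmegaTerm) : ℕ → OmegaTerm
  | 0 => .one
  | j + 1 => .mul (t.pow j) t

/-- The identity `t ^ (ω + 1) = t ^ ω`. -/
def stable (t : OmegaTerm) : OmegaTerm × OmegaTerm := (.mul (.omega t) t, .omega t)

/-- The first known identity `x ^ (ω + 1) = x ^ ω`. -/
def idOne : OmegaTerm × OmegaTerm := stable (.var 0)

/-- The second known identity `(x ^ ω y ^ ω) ^ (ω + 1) = (x ^ ω y ^ ω) ^ ω`. -/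
def idTwo : OmegaTerm × OmegaTerm := stable (.mul (.omega (.var 0)) (.omega (.var 1)))

/-- The term `(y ^ ω x ^ ω) ^ ω y x ^ j`. -/
def eventTerm (j : ℕ) : OmegaTerm :=
  .mul (.mul (.omega (.mul (.omega (.var 1)) (.omega (.var 0)))) (.var 1)) ((OmegaTerm.var 0).pow j)

end Pool.Agent.Work.MP_47bae8_lc
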