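import Pool.Agent.Work.MP_47bae8_lc.Shuf4
import Pool.Agent.Work.MP_47bae8_lc.Defs

set_option autoImplicit false

namespace Pool.Agent.Work.MP_47bae8_lc

/-- a word of length at most one -/
def Lt {A : Type} (x : FreeMonoid A) : Prop := x = 1 ∨ ∃ a, x = FreeMonoid.of a

/-- recognised by a finite monoid satisfying the identities -/
def Good {A : Type} (L : Set (List A)) : Prop :=
  ∃ (M : Type) (_ : Monoid M) (_ : Finite M) (φ : FreeMonoid A →* M) (P : Set M),
    (∀ w : List A, w ∈ L ↔ φ (FreeMonoid.ofList w) ∈ P) ∧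
    ∀ j x y, Lt x → Lt y → Q j (φ x) (φ y)

lemma Good.compl {A : Type} {L : Set (List A)} (h : Good L) : Good Lᶜ := by
  obtain ⟨M, _, _, φ, P, hP, hQ⟩ := h
  exact ⟨M, _, ‹_›, φ, Pᶜ, fun w => by rw [Set.mem_compl_iff, hP, Set.mem_compl_iff], hQ⟩

/-- two homomorphisms controlling the stabilisation of powers -/
lemma Q_of_two {M M₁ M₂ : Type*} [Monoid M] [Monoid M₁] [Monoid M₂] (π₁ : M →* M₁) (π₂ : M →* M₂)
    (h : ∀ (m : M) (N : ℕ), (π₁ m) ^ (N + 1) = (π₁ m) ^ N → (π₂ m) ^ (N + 1) = (π₂ m) ^ N →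
      m ^ (2 * N + 2) = m ^ (2 * N + 1)) {j : ℕ} {α β : M} (h1 : Q j (π₁ α) (π₁ β))
    (h2 : Q j (π₂ α) (π₂ β)) : Q j α β := by
  obtain ⟨N₁, h₁⟩ := h1
  obtain ⟨N₂, h₂⟩ := h2
  have h₁' := Q_mono h₁ (N' := max N₁ N₂) (by omega)
  have h₂' := Q_mono h₂ (N' := max N₁ N₂) (by omega)
  refine ⟨2 * max N₁ N₂ + 1, fun n hn => ⟨?_, ?_, ?_, ?_⟩⟩
  · exact h _ _ (h₁' n (by omega)).1 (h₂' n (by omega)).1
  · exact h _ _ (h₁' n (by omega)).2.1 (h₂' n (by omega)).2.1
  · refine h _ _ ?_ ?_
    · simpa using (h₁' n (by omega)).2.2.1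
    · simpa using (h₂' n (by omega)).2.2.1
  · refine h _ _ ?_ ?_
    · simpa using (h₁' n (by omega)).2.2.2
    · simpa using (h₂' n (by omega)).2.2.2

lemma Good.union {A : Type} {L L' : Set (List A)} (h : Good L) (h' : Good L') :
    Good (L ∪ L') := by
  obtain ⟨M, _, _, φ, P, hP, hQ⟩ := h
  obtain ⟨M', _, _, φ', P', hP', hQ'⟩ := h'
  refine ⟨M × M', inferInstance, inferInstance, φ.prod φ', {p | p.1 ∈ P ∨ p.2 ∈ P'},
    fun w => ?_, fun j x y hx hy => ?_⟩
  · rw [Set.mem_union, hP, hP']; rfl
  · refine Q_of_two (MonoidHom.fst M M') (MonoidHom.snd M M') ?_ (hQ j x y hx hy) (hQ' j x y hx hy)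
    intro m N h1 h2
    refine Prod.ext ?_ ?_
    · exact pow_stab' h1 (by omega) (by omega)
    · exact pow_stab' h2 (by omega) (by omega)

/-! ### letters -/

/-- the three element monoid `{1, s, 0}` with `s * s = 0` -/
inductive K3 | e | s | z
  deriving DecidableEq

instance : Fintype K3 := ⟨{K3.e, K3.s, K3.z}, by intro x; cases x <;> decide⟩

/-- multiplication -/
def K3.mul : K3 → K3 → K3
  | .e, x => x
  | x, .e => x
  | _, _ => .z

instance : Monoid K3 where
  mul := K3.mul
  one := K3.e
  mul_assoc := by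
    intro a b c
    change K3.mul (K3.mul a b) c = K3.mul a (K3.mul b c)
    cases a <;> cases b <;> cases c <;> rfl
  one_mul := by
    intro a
    change K3.mul K3.e a = a
    cases a <;> rfl
  mul_one := by
    intro a
    change K3.mul a K3.e = a
    cases a <;> rfl

lemma K3_pow (m : K3) : m ^ (2 + 1) = m ^ 2 := by
  cases m <;> rfl

lemma good_letter {A : Type} (a : A) : Good ({[a]} : Set (List A)) := by
  classical
  refine ⟨K3, inferInstance, inferInstance, FreeMonoid.lift (fun b => if b = a then K3.s else K3.z),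
    {K3.s}, ?_, ?_⟩
  · intro w
    rw [Set.mem_singleton_iff, Set.mem_singleton_iff]
    have h0 : ∀ w : List A, w ≠ [] →
        FreeMonoid.lift (fun b => if b = a then K3.s else K3.z) (FreeMonoid.ofList w) ≠ K3.e := by
      intro w hw
      cases w with
      | nil => exact absurd rfl hw
      | cons b w =>
        rw [FreeMonoid.ofList_cons, map_mul, FreeMonoid.lift_eval_of]
        generalize FreeMonoid.lift (fun b => if b = a then K3.s else K3.z) (FreeMonoid.ofList w) = m
        change K3.mul _ _ ≠ _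
        by_cases hb : b = a
        · rw [if_pos hb]; cases m <;> simp [K3.mul]
        · rw [if_neg hb]; cases m <;> simp [K3.mul]
    cases w with
    | nil =>
      constructor
      · intro h; simp at h
      · intro h
        change (1 : K3) = K3.s at h
        exact absurd h (by decide)
    | cons b w =>
      rw [FreeMonoid.ofList_cons, map_mul, FreeMonoid.lift_eval_of]
      by_cases hw : w = []
      · subst hw
        rw [FreeMonoid.ofList_nil, map_one, mul_one]
        by_cases hb : b = a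
        · simp [hb]
        · simp [hb]
      · have := h0 w hw
        revert this
        generalize FreeMonoid.lift (fun b => if b = a then K3.s else K3.z) (FreeMonoid.ofList w) = m
        intro this
        have h1 : (b :: w) ≠ [a] := by simp [hw]
        simp only [h1, false_iff]
        change K3.mul _ _ ≠ _
        by_cases hb : b = a
        · rw [if_pos hb]; cases m <;> simp_all [K3.mul]
        · rw [if_neg hb]; cases m <;> simp [K3.mul]
  · intro j x y _ _
    exact Q_of (K3_pow _) (K3_pow _) ⟨0, fun n _ => ⟨2, K3_pow _⟩⟩ ⟨0, fun n _ => ⟨2, K3_pow _⟩⟩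

end Pool.Agent.Work.MP_47bae8_lc
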