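import Pool.Agent.Work.MP_47bae8_lc.Closure

set_option autoImplicit false

open scoped Pointwise

namespace Pool.Agent.Work.MP_47bae8_lc

/-! ### product of languages -/

/-- Schützenberger product -/
@[ext] structure Sch (M N : Type) where
  l : M
  s : Set (M × N)
  r : N

namespace Sch
variable {M N : Type} [Monoid M] [Monoid N]

instance : Mul (Sch M N) := ⟨fun a b => ⟨a.l * b.l,
  (fun p => (a.l * p.1, p.2)) '' b.s ∪ (fun p => (p.1, p.2 * b.r)) '' a.s, a.r * b.r⟩⟩
instance : One (Sch M N) := ⟨⟨1, ∅, 1⟩⟩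

@[simp] lemma mul_l (a b : Sch M N) : (a * b).l = a.l * b.l := rfl
@[simp] lemma mul_r (a b : Sch M N) : (a * b).r = a.r * b.r := rfl
lemma mul_s (a b : Sch M N) : (a * b).s =
  (fun p => (a.l * p.1, p.2)) '' b.s ∪ (fun p => (p.1, p.2 * b.r)) '' a.s := rfl
@[simp] lemma one_l : (1 : Sch M N).l = 1 := rfl
@[simp] lemma one_r : (1 : Sch M N).r = 1 := rfl
@[simp] lemma one_s : (1 : Sch M N).s = ∅ := rfl

instance : Monoid (Sch M N) where
  mul_assoc := by
    intro a b c
    refine Sch.ext (by simp [mul_assoc]) ?_ (by simp [mul_assoc])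
    simp only [mul_s, Set.image_union, Set.image_image, mul_l, mul_r, mul_assoc, Set.union_assoc]
  one_mul := by
    intro a
    refine Sch.ext (by simp) ?_ (by simp)
    simp [mul_s]
  mul_one := by
    intro a
    refine Sch.ext (by simp) ?_ (by simp)
    simp [mul_s]

instance [Finite M] [Finite N] : Finite (Sch M N) :=
  Finite.of_injective (fun a : Sch M N => (a.l, a.s, a.r)) (by
    intro a b h
    simp only [Prod.mk.injEq] at h
    exact Sch.ext h.1 h.2.1 h.2.2)

/-- projection -/
def lh : Sch M N →* M := ⟨⟨Sch.l, rfl⟩, fun _ _ => rfl⟩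
/-- projection -/
def rh : Sch M N →* N := ⟨⟨Sch.r, rfl⟩, fun _ _ => rfl⟩

lemma mem_pow (a : Sch M N) (k : ℕ) (p : M × N) : p ∈ (a ^ k).s ↔
    ∃ i i' q, i + i' + 1 = k ∧ q ∈ a.s ∧ p = (a.l ^ i * q.1, q.2 * a.r ^ i') := by
  induction k generalizing p with
  | zero =>
    rw [pow_zero]
    simp
  | succ k ih =>
    have hr : (a ^ k).r = a.r ^ k := map_pow (rh (M := M) (N := N)) a k
    have hl : (a ^ k).l = a.l ^ k := map_pow (lh (M := M) (N := N)) a k
    rw [pow_succ, mul_s, Set.mem_union, Set.mem_image, Set.mem_image]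
    constructor
    · rintro (⟨q, hq, rfl⟩ | ⟨q, hq, rfl⟩)
      · exact ⟨k, 0, q, by omega, hq, by simp [hl]⟩
      · obtain ⟨i, i', q', hii, hq', rfl⟩ := (ih q).1 hq
        exact ⟨i, i' + 1, q', by omega, hq', by simp [pow_succ, mul_assoc]⟩
    · rintro ⟨i, i', q, hii, hq, rfl⟩
      rcases i' with _ | i'
      · left
        obtain rfl : i = k := by omega
        exact ⟨q, hq, by simp [hl]⟩
      · right
        exact ⟨(a.l ^ i * q.1, q.2 * a.r ^ i'), (ih _).2 ⟨i, i', q, by omega, hq, rfl⟩,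
          by simp [pow_succ, mul_assoc]⟩

lemma pow_stable (a : Sch M N) (n : ℕ) (h1 : a.l ^ (n + 1) = a.l ^ n)
    (h2 : a.r ^ (n + 1) = a.r ^ n) : a ^ (2 * n + 2) = a ^ (2 * n + 1) := by
  refine Sch.ext ?_ ?_ ?_
  · have e1 : (a ^ (2 * n + 2)).l = a.l ^ (2 * n + 2) := map_pow (lh (M := M) (N := N)) a (2 * n + 2)
    have e2 : (a ^ (2 * n + 1)).l = a.l ^ (2 * n + 1) := map_pow (lh (M := M) (N := N)) a (2 * n + 1)
    rw [e1, e2]
    exact pow_stab' h1 (by omega) (by omega)
  · ext p
    rw [mem_pow, mem_pow]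
    constructor
    · rintro ⟨i, i', q, hii, hq, rfl⟩
      by_cases hi : n + 1 ≤ i
      · refine ⟨i - 1, i', q, by omega, hq, ?_⟩
        rw [pow_stab' h1 (k := i) (l := i - 1) (by omega) (by omega)]
      · refine ⟨i, i' - 1, q, by omega, hq, ?_⟩
        rw [pow_stab' h2 (k := i') (l := i' - 1) (by omega) (by omega)]
    · rintro ⟨i, i', q, hii, hq, rfl⟩
      by_cases hi : n ≤ i
      · refine ⟨i + 1, i', q, by omega, hq, ?_⟩
        rw [pow_stab' h1 (k := i + 1) (l := i) (by omega) (by omega)]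
      · refine ⟨i, i' + 1, q, by omega, hq, ?_⟩
        rw [pow_stab' h2 (k := i' + 1) (l := i') (by omega) (by omega)]
  · have e1 : (a ^ (2 * n + 2)).r = a.r ^ (2 * n + 2) := map_pow (rh (M := M) (N := N)) a (2 * n + 2)
    have e2 : (a ^ (2 * n + 1)).r = a.r ^ (2 * n + 1) := map_pow (rh (M := M) (N := N)) a (2 * n + 1)
    rw [e1, e2]
    exact pow_stab' h2 (by omega) (by omega)

end Sch

lemma Good.conc {A : Type} {L L' : Set (List A)} (h : Good L) (h' : Good L') :
    Good (conc L L') := by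
  obtain ⟨M, _, _, φ, P, hP, hQ⟩ := h
  obtain ⟨M', _, _, φ', P', hP', hQ'⟩ := h'
  let Φ : FreeMonoid A →* Sch M M' := FreeMonoid.lift (fun a =>
    ⟨φ (FreeMonoid.of a), {(φ (FreeMonoid.of a), 1)}, φ' (FreeMonoid.of a)⟩)
  have hl : ∀ w, (Φ w).l = φ w := by
    intro w
    have : (Sch.lh.comp Φ) = φ := by
      apply FreeMonoid.hom_eq
      intro a
      simp only [Φ, MonoidHom.comp_apply, FreeMonoid.lift_eval_of]
      rfl
    exact DFunLike.congr_fun this w
  have hr : ∀ w, (Φ w).r = φ' w := by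
    intro w
    have : (Sch.rh.comp Φ) = φ' := by
      apply FreeMonoid.hom_eq
      intro a
      simp only [Φ, MonoidHom.comp_apply, FreeMonoid.lift_eval_of]
      rfl
    exact DFunLike.congr_fun this w
  have hs : ∀ (w : List A) (p : M × M'), p ∈ (Φ (FreeMonoid.ofList w)).s ↔
      ∃ u v : List A, u ≠ [] ∧ w = u ++ v ∧
        p = (φ (FreeMonoid.ofList u), φ' (FreeMonoid.ofList v)) := by
    intro w
    induction w with
    | nil =>
      intro p
      rw [FreeMonoid.ofList_nil, map_one]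
      simp only [Sch.one_s, Set.mem_empty_iff_false, false_iff]
      rintro ⟨u, v, hu, huv, _⟩
      exact hu (List.append_eq_nil_iff.1 huv.symm).1
    | cons a w ih =>
      intro p
      rw [FreeMonoid.ofList_cons, map_mul, Sch.mul_s, Set.mem_union, Set.mem_image, Set.mem_image]
      have ha : Φ (FreeMonoid.of a) =
          ⟨φ (FreeMonoid.of a), {(φ (FreeMonoid.of a), 1)}, φ' (FreeMonoid.of a)⟩ := by
        simp only [Φ, FreeMonoid.lift_eval_of]
      constructor
      · rintro (⟨q, hq, rfl⟩ | ⟨q, hq, rfl⟩)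
        · obtain ⟨u, v, hu, huv, rfl⟩ := (ih q).1 hq
          refine ⟨a :: u, v, by simp, by simp [huv], ?_⟩
          rw [ha, FreeMonoid.ofList_cons, map_mul]
        · rw [ha] at hq
          obtain rfl : q = _ := hq
          refine ⟨[a], w, by simp, by simp, ?_⟩
          rw [hr, one_mul]
          rfl
      · rintro ⟨u, v, hu, huv, rfl⟩
        cases u with
        | nil => exact absurd rfl hu
        | cons b u =>
          rw [List.cons_append, List.cons.injEq] at huv
          obtain ⟨rfl, huv⟩ := huv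
          by_cases hu' : u = []
          · right
            subst hu'
            refine ⟨(φ (FreeMonoid.of a), 1), by rw [ha]; rfl, ?_⟩
            rw [hr, one_mul, huv]
            rfl
          · left
            refine ⟨(φ (FreeMonoid.ofList u), φ' (FreeMonoid.ofList v)),
              (ih _).2 ⟨u, v, hu', huv, rfl⟩, ?_⟩
            rw [ha, FreeMonoid.ofList_cons, map_mul]
  refine ⟨Sch M M', inferInstance, inferInstance, Φ,
    {m | (1 ∈ P ∧ m.r ∈ P') ∨ ∃ p ∈ m.s, p.1 ∈ P ∧ p.2 ∈ P'}, ?_, ?_⟩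
  · intro w
    rw [Set.mem_ofPred_eq]
    constructor
    · rintro ⟨u, hu, v, hv, rfl⟩
      by_cases hu' : u = []
      · left
        subst hu'
        refine ⟨?_, ?_⟩
        · have := (hP []).1 hu
          rwa [FreeMonoid.ofList_nil, map_one] at this
        · rw [hr]; exact (hP' v).1 hv
      · right
        exact ⟨_, (hs _ _).2 ⟨u, v, hu', rfl, rfl⟩, (hP u).1 hu, (hP' v).1 hv⟩
    · rintro (⟨h1, h2⟩ | ⟨p, hp, h1, h2⟩)
      · refine ⟨[], ?_, w, ?_, by simp⟩
        · rw [hP, FreeMonoid.ofList_nil, map_one]; exact h1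
        · rw [hP', ← hr]; exact h2
      · obtain ⟨u, v, _, huv, rfl⟩ := (hs _ _).1 hp
        exact ⟨u, (hP u).2 h1, v, (hP' v).2 h2, huv⟩
  · intro j x y hx hy
    refine Q_of_two (Sch.lh (M := M) (N := M')) Sch.rh (fun m N h1 h2 => Sch.pow_stable m N h1 h2)
      ?_ ?_
    · have e1 : Sch.lh (Φ x) = φ x := hl x
      have e2 : Sch.lh (Φ y) = φ y := hl y
      rw [e1, e2]; exact hQ j x y hx hy
    · have e1 : Sch.rh (Φ x) = φ' x := hr x
      have e2 : Sch.rh (Φ y) = φ' y := hr y
      rw [e1, e2]; exact hQ' j x y hx hy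

/-! ### shuffle -/

lemma Good.shuffle {A : Type} {L L' : Set (List A)} (h : Good L) (h' : Good L') :
    Good (shuffle L L') := by
  obtain ⟨M, _, _, φ, P, hP, hQ⟩ := h
  obtain ⟨M', _, _, φ', P', hP', hQ'⟩ := h'
  let Φ : FreeMonoid A →* Set (M × M') := FreeMonoid.lift (fun a =>
    sl (φ (FreeMonoid.of a)) (φ' (FreeMonoid.of a)))
  have hΦ : ∀ x, Lt x → Φ x = sl (φ x) (φ' x) := by
    rintro x (rfl | ⟨a, rfl⟩)
    · rw [map_one, map_one, map_one]
      simp only [sl, Set.pair_eq_singleton]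
      rfl
    · simp only [Φ, FreeMonoid.lift_eval_of]
  have hmem : ∀ (w : List A) (p : M × M'), p ∈ Φ (FreeMonoid.ofList w) ↔
      ∃ t : List (A × Bool), t.map Prod.fst = w ∧
        p = (φ (FreeMonoid.ofList ((t.filter (fun p => p.2)).map Prod.fst)),
          φ' (FreeMonoid.ofList ((t.filter (fun p => !p.2)).map Prod.fst))) := by
    intro w
    induction w with
    | nil =>
      intro p
      rw [FreeMonoid.ofList_nil, map_one, Set.mem_one]
      constructor
      · rintro rfl
        exact ⟨[], rfl, by simp; rfl⟩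
      · rintro ⟨t, ht, rfl⟩
        obtain rfl := List.map_eq_nil_iff.1 ht
        simp
    | cons a w ih =>
      intro p
      rw [FreeMonoid.ofList_cons, map_mul, hΦ _ (Or.inr ⟨a, rfl⟩), Set.mem_mul]
      constructor
      · rintro ⟨c, hc, q, hq, rfl⟩
        obtain ⟨t, ht, rfl⟩ := (ih q).1 hq
        simp only [sl, Set.mem_insert_iff, Set.mem_singleton_iff] at hc
        rcases hc with rfl | rfl
        · refine ⟨(a, true) :: t, by simp [ht], ?_⟩
          simp [FreeMonoid.ofList_cons]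
        · refine ⟨(a, false) :: t, by simp [ht], ?_⟩
          simp [FreeMonoid.ofList_cons]
      · rintro ⟨t, ht, rfl⟩
        cases t with
        | nil => simp at ht
        | cons c t =>
          obtain ⟨b, bb⟩ := c
          simp only [List.map_cons, List.cons.injEq] at ht
          obtain ⟨rfl, ht⟩ := ht
          cases bb with
          | true =>
            refine ⟨(φ (FreeMonoid.of b), 1), by simp [sl], _, (ih _).2 ⟨t, ht, rfl⟩, ?_⟩
            simp [FreeMonoid.ofList_cons]
          | false =>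
            refine ⟨(1, φ' (FreeMonoid.of b)), by simp [sl], _, (ih _).2 ⟨t, ht, rfl⟩, ?_⟩
            simp [FreeMonoid.ofList_cons]
  refine ⟨Set (M × M'), inferInstance, inferInstance, Φ, {S | ∃ p ∈ S, p.1 ∈ P ∧ p.2 ∈ P'}, ?_, ?_⟩
  · intro w
    rw [Set.mem_ofPred_eq]
    constructor
    · rintro ⟨t, ht, h1, h2⟩
      exact ⟨_, (hmem _ _).2 ⟨t, ht, rfl⟩, (hP _).1 h1, (hP' _).1 h2⟩
    · rintro ⟨p, hp, h1, h2⟩
      obtain ⟨t, ht, rfl⟩ := (hmem _ _).1 hp
      exact ⟨t, ht, (hP _).2 h1, (hP' _).2 h2⟩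
  · intro j x y hx hy
    rw [hΦ x hx, hΦ y hy]
    exact Q_shuffle (hQ j x y hx hy) (hQ' j x y hx hy)

/-- every intermixed language is recognised by a finite monoid satisfying the identities -/
theorem Intermixed.good {A : Type} {L : Set (List A)} (h : Intermixed L) : Good L := by
  induction h with
  | letter a => exact good_letter a
  | compl _ ih => exact ih.compl
  | union _ _ ih ih' => exact ih.union ih'
  | conc _ _ ih ih' => exact ih.conc ih'
  | shuffle _ _ ih ih' => exact ih.shuffle ih'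

end Pool.Agent.Work.MP_47bae8_lc
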