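import Mathlib

set_option autoImplicit false

open scoped Pointwise

namespace Pool.Agent.Work.MP_47bae8_lc

/-! ### powers that stabilise -/

section Stab
variable {M : Type*} [Monoid M]

lemma pow_stab {m : M} {N : ℕ} (h : m ^ (N + 1) = m ^ N) : ∀ k, N ≤ k → m ^ k = m ^ N := by
  intro k hk
  induction k, hk using Nat.le_induction with
  | base => rfl
  | succ k hk ih =>
    rw [pow_succ, ih, ← pow_succ, h]

lemma pow_stab' {m : M} {N : ℕ} (h : m ^ (N + 1) = m ^ N) {k l : ℕ} (hk : N ≤ k) (hl : N ≤ l) :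
    m ^ k = m ^ l := by
  rw [pow_stab h k hk, pow_stab h l hl]

/-- `Q j α β`: the element `α` plays the role of the letter `x`, the element `β` of the letter `y`;
all the identities hold with exponents beyond a threshold. -/
def Q (j : ℕ) (α β : M) : Prop :=
  ∃ N : ℕ, ∀ n, N ≤ n →
    α ^ (N + 1) = α ^ N ∧ β ^ (N + 1) = β ^ N ∧
    (β ^ n * α ^ n) ^ (N + 1) = (β ^ n * α ^ n) ^ N ∧
    ((β ^ n * α ^ n) ^ n * β * α ^ j) ^ (N + 1) = ((β ^ n * α ^ n) ^ n * β * α ^ j) ^ N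

/-- enlarge the threshold -/
lemma Q_mono {j : ℕ} {α β : M} {N : ℕ} (h : ∀ n, N ≤ n →
    α ^ (N + 1) = α ^ N ∧ β ^ (N + 1) = β ^ N ∧
    (β ^ n * α ^ n) ^ (N + 1) = (β ^ n * α ^ n) ^ N ∧
    ((β ^ n * α ^ n) ^ n * β * α ^ j) ^ (N + 1) = ((β ^ n * α ^ n) ^ n * β * α ^ j) ^ N)
    {N' : ℕ} (hN : N ≤ N') : ∀ n, N' ≤ n →
    α ^ (N' + 1) = α ^ N' ∧ β ^ (N' + 1) = β ^ N' ∧
    (β ^ n * α ^ n) ^ (N' + 1) = (β ^ n * α ^ n) ^ N' ∧
    ((β ^ n * α ^ n) ^ n * β * α ^ j) ^ (N' + 1) = ((β ^ n * α ^ n) ^ n * β * α ^ j) ^ N' := by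
  intro n hn
  obtain ⟨h1, h2, h3, h4⟩ := h n (hN.trans hn)
  exact ⟨pow_stab' h1 (by omega) hN, pow_stab' h2 (by omega) hN, pow_stab' h3 (by omega) hN,
    pow_stab' h4 (by omega) hN⟩

/-- constructor with three independent thresholds -/
lemma Q_of {j : ℕ} {α β : M} {N₁ : ℕ} (h1 : α ^ (N₁ + 1) = α ^ N₁) (h2 : β ^ (N₁ + 1) = β ^ N₁)
    (h3 : ∃ N₂, ∀ n, N₂ ≤ n → ∃ N₃, (β ^ n * α ^ n) ^ (N₃ + 1) = (β ^ n * α ^ n) ^ N₃)
    (h4 : ∃ N₂, ∀ n, N₂ ≤ n → ∃ N₃, ((β ^ n * α ^ n) ^ n * β * α ^ j) ^ (N₃ + 1) =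
      ((β ^ n * α ^ n) ^ n * β * α ^ j) ^ N₃) : Q j α β := by
  obtain ⟨P, hP⟩ := h3
  obtain ⟨R, hR⟩ := h4
  set P' := max P N₁ with hP'
  obtain ⟨N₂, hN₂⟩ := hP P' (le_max_left _ _)
  -- beyond `P'` the element `β^n α^n` is constant
  have hW : ∀ n, P' ≤ n → β ^ n * α ^ n = β ^ P' * α ^ P' := by
    intro n hn
    rw [pow_stab' h2 (k := n) (l := P') (by omega) (by omega),
      pow_stab' h1 (k := n) (l := P') (by omega) (by omega)]
  set R' := max (max P' N₂) R with hR'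
  obtain ⟨N₃, hN₃⟩ := hR R' (le_max_right _ _)
  have hT : ∀ n, R' ≤ n → (β ^ n * α ^ n) ^ n * β * α ^ j = (β ^ R' * α ^ R') ^ R' * β * α ^ j := by
    intro n hn
    rw [hW n (by omega), hW R' (by omega),
      pow_stab' hN₂ (k := n) (l := R') (by omega) (by omega)]
  refine ⟨max R' (max N₃ N₁), fun n hn => ⟨?_, ?_, ?_, ?_⟩⟩
  · exact pow_stab' h1 (by omega) (by omega)
  · exact pow_stab' h2 (by omega) (by omega)
  · rw [hW n (by omega)]
    exact pow_stab' hN₂ (by omega) (by omega)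
  · rw [hT n (by omega)]
    exact pow_stab' hN₃ (by omega) (by omega)

end Stab

/-! ### shuffles of words over a two letter alphabet -/

/-- words over `{x, y}`; `true` is `x` and `false` is `y` -/
abbrev F := FreeMonoid Bool

/-- the letter `x` -/
def xx : F := FreeMonoid.of true
/-- the letter `y` -/
def yy : F := FreeMonoid.of false

/-- the two ways to distribute the letter `c` -/
def L (c : F) : Set (F × F) := {(c, 1), (1, c)}

lemma mem_L_pow (c : F) (n : ℕ) (p : F × F) :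
    p ∈ L c ^ n ↔ ∃ i k, i + k = n ∧ p = (c ^ i, c ^ k) := by
  induction n generalizing p with
  | zero =>
    simp only [pow_zero, Set.mem_one]
    constructor
    · rintro rfl; exact ⟨0, 0, rfl, rfl⟩
    · rintro ⟨i, k, h, rfl⟩
      obtain ⟨rfl, rfl⟩ : i = 0 ∧ k = 0 := by omega
      simp
  | succ n ih =>
    rw [pow_succ, Set.mem_mul]
    constructor
    · rintro ⟨q, hq, r, hr, rfl⟩
      obtain ⟨i, k, h, rfl⟩ := (ih q).1 hq
      simp only [L, Set.mem_insert_iff, Set.mem_singleton_iff] at hr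
      rcases hr with rfl | rfl
      · exact ⟨i + 1, k, by omega, by simp [pow_succ]⟩
      · exact ⟨i, k + 1, by omega, by simp [pow_succ]⟩
    · rintro ⟨i, k, h, rfl⟩
      rcases i with _ | i
      · obtain rfl : k = n + 1 := by omega
        exact ⟨(1, c ^ n), (ih _).2 ⟨0, n, by omega, by simp⟩, (1, c), by simp [L],
          by simp [pow_succ]⟩
      · exact ⟨(c ^ i, c ^ k), (ih _).2 ⟨i, k, by omega, rfl⟩, (c, 1), by simp [L],
          by simp [pow_succ]⟩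


/-- the submonoid of all sets containing an element in which all `x` go right and all `y` go left,
and an element in which all `x` go left and all `y` go right -/
def GG : Submonoid (Set (F × F)) where
  carrier := {X | (∃ p q, (yy ^ p, xx ^ q) ∈ X) ∧ (∃ p q, (xx ^ p, yy ^ q) ∈ X)}
  one_mem' := ⟨⟨0, 0, by simp [Set.mem_one, Prod.one_eq_mk]⟩, ⟨0, 0, by simp [Set.mem_one, Prod.one_eq_mk]⟩⟩
  mul_mem' := by
    rintro X Y ⟨⟨p, q, h⟩, ⟨p', q', h'⟩⟩ ⟨⟨r, s, k⟩, ⟨r', s', k'⟩⟩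
    refine ⟨⟨p + r, q + s, ?_⟩, ⟨p' + r', q' + s', ?_⟩⟩
    · exact Set.mem_mul.2 ⟨_, h, _, k, by simp [pow_add]⟩
    · exact Set.mem_mul.2 ⟨_, h', _, k', by simp [pow_add]⟩

lemma L_xx_mem : L xx ∈ GG := ⟨⟨0, 1, by simp [L]⟩, ⟨1, 0, by simp [L]⟩⟩
lemma L_yy_mem : L yy ∈ GG := ⟨⟨1, 0, by simp [L]⟩, ⟨0, 1, by simp [L]⟩⟩

/-- the set of all ways to distribute `y^n x^n` -/
def W (n : ℕ) : Set (F × F) := L yy ^ n * L xx ^ n

lemma W_mem (n : ℕ) : W n ∈ GG := mul_mem (pow_mem L_yy_mem n) (pow_mem L_xx_mem n)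

section Dich
variable {M₁ M₂ : Type*} [Monoid M₁] [Monoid M₂] (f₁ : F →* M₁) (f₂ : F →* M₂)

/-- the value of a pair of words -/
def val (p : F × F) : M₁ × M₂ := (f₁ p.1, f₂ p.2)

lemma val_mul (p q : F × F) : val f₁ f₂ (p * q) = val f₁ f₂ p * val f₁ f₂ q := by
  simp [val]

/-- between `y` and `z` everything can be inserted -/
def Abs (y z : F × F) : Prop :=
  (∀ p q, val f₁ f₂ (y * (yy ^ p, xx ^ q) * z) = val f₁ f₂ (y * z)) ∨
  (∀ p q, val f₁ f₂ (y * (xx ^ p, yy ^ q) * z) = val f₁ f₂ (y * z))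

variable {f₁ f₂}

lemma Abs.insert {y z : F × F} (h : Abs f₁ f₂ y z) {X Z C : Set (F × F)} (hy : y ∈ X) (hz : z ∈ Z)
    (hC : C ∈ GG) : ∃ w ∈ X * C * Z, val f₁ f₂ w = val f₁ f₂ (y * z) := by
  obtain ⟨⟨p, q, h1⟩, ⟨p', q', h2⟩⟩ := hC
  rcases h with h | h
  · exact ⟨_, Set.mul_mem_mul (Set.mul_mem_mul hy h1) hz, h p q⟩
  · exact ⟨_, Set.mul_mem_mul (Set.mul_mem_mul hy h2) hz, h p' q'⟩

lemma Abs.mul_right {y z : F × F} (h : Abs f₁ f₂ y z) (r : F × F) : Abs f₁ f₂ y (z * r) := by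
  rcases h with h | h
  · left; intro p q
    rw [← mul_assoc, val_mul, h p q, ← val_mul, mul_assoc]
  · right; intro p q
    rw [← mul_assoc, val_mul, h p q, ← val_mul, mul_assoc]

lemma Abs.mul_left {y z : F × F} (h : Abs f₁ f₂ y z) (r : F × F) : Abs f₁ f₂ (r * y) z := by
  rcases h with h | h
  · left; intro p q
    rw [mul_assoc, mul_assoc, val_mul, ← mul_assoc, h p q, ← val_mul, mul_assoc]
  · right; intro p q
    rw [mul_assoc, mul_assoc, val_mul, ← mul_assoc, h p q, ← val_mul, mul_assoc]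

/-- left word ends with absorbed `y`, right word starts with absorbed `x` etc. -/
lemma abs_yx {y z : F × F} (h1 : f₁ y.1 * f₁ yy = f₁ y.1) (h2 : f₂ xx * f₂ z.2 = f₂ z.2) :
    Abs f₁ f₂ y z := by
  left; intro p q
  have e1 : f₁ y.1 * f₁ yy ^ p = f₁ y.1 := by
    induction p with
    | zero => simp
    | succ p ih => rw [pow_succ, ← mul_assoc, ih, h1]
  have e2 : f₂ xx ^ q * f₂ z.2 = f₂ z.2 := by
    induction q with
    | zero => simp
    | succ q ih => rw [pow_succ, mul_assoc, h2, ih]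
  simp only [val, Prod.fst_mul, Prod.snd_mul, map_mul, map_pow, Prod.mk.injEq]
  exact ⟨by rw [e1], by rw [mul_assoc, e2]⟩

lemma abs_yx' {y z : F × F} (h1 : f₂ y.2 * f₂ xx = f₂ y.2) (h2 : f₁ yy * f₁ z.1 = f₁ z.1) :
    Abs f₁ f₂ y z := by
  left; intro p q
  have e1 : f₂ y.2 * f₂ xx ^ q = f₂ y.2 := by
    induction q with
    | zero => simp
    | succ p ih => rw [pow_succ, ← mul_assoc, ih, h1]
  have e2 : f₁ yy ^ p * f₁ z.1 = f₁ z.1 := by
    induction p with
    | zero => simp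
    | succ q ih => rw [pow_succ, mul_assoc, h2, ih]
  simp only [val, Prod.fst_mul, Prod.snd_mul, map_mul, map_pow, Prod.mk.injEq]
  exact ⟨by rw [mul_assoc, e2], by rw [e1]⟩

lemma abs_xy {y z : F × F} (h1 : f₁ y.1 * f₁ xx = f₁ y.1) (h2 : f₂ yy * f₂ z.2 = f₂ z.2) :
    Abs f₁ f₂ y z := by
  right; intro p q
  have e1 : f₁ y.1 * f₁ xx ^ p = f₁ y.1 := by
    induction p with
    | zero => simp
    | succ p ih => rw [pow_succ, ← mul_assoc, ih, h1]
  have e2 : f₂ yy ^ q * f₂ z.2 = f₂ z.2 := by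
    induction q with
    | zero => simp
    | succ q ih => rw [pow_succ, mul_assoc, h2, ih]
  simp only [val, Prod.fst_mul, Prod.snd_mul, map_mul, map_pow, Prod.mk.injEq]
  exact ⟨by rw [e1], by rw [mul_assoc, e2]⟩

lemma abs_xy' {y z : F × F} (h1 : f₂ y.2 * f₂ yy = f₂ y.2) (h2 : f₁ xx * f₁ z.1 = f₁ z.1) :
    Abs f₁ f₂ y z := by
  right; intro p q
  have e1 : f₂ y.2 * f₂ yy ^ q = f₂ y.2 := by
    induction q with
    | zero => simp
    | succ p ih => rw [pow_succ, ← mul_assoc, ih, h1]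
  have e2 : f₁ xx ^ p * f₁ z.1 = f₁ z.1 := by
    induction p with
    | zero => simp
    | succ q ih => rw [pow_succ, mul_assoc, h2, ih]
  simp only [val, Prod.fst_mul, Prod.snd_mul, map_mul, map_pow, Prod.mk.injEq]
  exact ⟨by rw [mul_assoc, e2], by rw [e1]⟩

/-- hypotheses on the letters -/
structure Hyp (f₁ : F →* M₁) (f₂ : F →* M₂) (N : ℕ) : Prop where
  x1 : f₁ xx ^ (N + 1) = f₁ xx ^ N
  y1 : f₁ yy ^ (N + 1) = f₁ yy ^ N
  x2 : f₂ xx ^ (N + 1) = f₂ xx ^ N
  y2 : f₂ yy ^ (N + 1) = f₂ yy ^ N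

lemma absorb_right {M : Type*} [Monoid M] {m : M} {N k : ℕ} (h : m ^ (N + 1) = m ^ N) (hk : N ≤ k)
    (c : M) : c * m ^ k * m = c * m ^ k := by
  rw [mul_assoc, ← pow_succ, pow_stab' h (k := k + 1) (l := k) (by omega) hk]

lemma absorb_left {M : Type*} [Monoid M] {m : M} {N k : ℕ} (h : m ^ (N + 1) = m ^ N) (hk : N ≤ k)
    (c : M) : m * (m ^ k * c) = m ^ k * c := by
  rw [← mul_assoc, ← pow_succ', pow_stab' h (k := k + 1) (l := k) (by omega) hk]

/-- The dichotomy: a distribution of `(y^n x^n)^m` is expandable, or all runs are large on the left,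
or all runs are large on the right. -/
lemma dichotomy {N n : ℕ} (H : Hyp f₁ f₂ N) (hn : 2 * N ≤ n) :
    ∀ m, 1 ≤ m → ∀ x ∈ W n ^ m,
      (∃ k l Q₁ Q₂ y z, Q₁ * Q₂ = W n ∧ k + l + 1 = m ∧ Q₁ ∈ GG ∧ Q₂ ∈ GG ∧
        y ∈ W n ^ k * Q₁ ∧ z ∈ Q₂ * W n ^ l ∧ x = y * z ∧ Abs f₁ f₂ y z) ∨
      f₁ x.1 = (f₁ yy ^ N * f₁ xx ^ N) ^ m ∨ f₂ x.2 = (f₂ yy ^ N * f₂ xx ^ N) ^ m := by
  intro m hm
  induction m, hm using Nat.le_induction with
  | base =>
    intro x hx
    rw [pow_one] at hx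
    obtain ⟨r, hr, s, hs, rfl⟩ := Set.mem_mul.1 hx
    obtain ⟨p, q, hpq, rfl⟩ := (mem_L_pow yy n r).1 hr
    obtain ⟨p', q', hpq', rfl⟩ := (mem_L_pow xx n s).1 hs
    by_cases hp : N ≤ p
    · by_cases hq' : N ≤ q'
      · left
        refine ⟨0, 0, L yy ^ n, L xx ^ n, (yy ^ p, yy ^ q), (xx ^ p', xx ^ q'), rfl, rfl,
          pow_mem L_yy_mem n, pow_mem L_xx_mem n, ?_, ?_, rfl, ?_⟩
        · simpa using hr
        · simpa using hs
        · apply abs_yx
          · simpa using absorb_right H.y1 hp (1 : M₁)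
          · simpa using absorb_left H.x2 hq' (1 : M₂)
      · right; left
        have hp' : N ≤ p' := by omega
        simp only [Prod.fst_mul, map_mul, map_pow, pow_one]
        rw [pow_stab H.y1 p hp, pow_stab H.x1 p' hp']
    · have hq : N ≤ q := by omega
      by_cases hp' : N ≤ p'
      · left
        refine ⟨0, 0, L yy ^ n, L xx ^ n, (yy ^ p, yy ^ q), (xx ^ p', xx ^ q'), rfl, rfl,
          pow_mem L_yy_mem n, pow_mem L_xx_mem n, ?_, ?_, rfl, ?_⟩
        · simpa using hr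
        · simpa using hs
        · apply abs_xy'
          · simpa using absorb_right H.y2 hq (1 : M₂)
          · simpa using absorb_left H.x1 hp' (1 : M₁)
      · right; right
        have hq' : N ≤ q' := by omega
        simp only [Prod.snd_mul, map_mul, map_pow, pow_one]
        rw [pow_stab H.y2 q hq, pow_stab H.x2 q' hq']
  | succ m hm ih =>
    intro x hx
    rw [pow_succ] at hx
    obtain ⟨x₀, hx₀, t, ht, rfl⟩ := Set.mem_mul.1 hx
    obtain ⟨r, hr, s, hs, rfl⟩ := Set.mem_mul.1 ht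
    rcases ih x₀ hx₀ with ⟨k, l, Q₁, Q₂, y, z, hQ, hkl, g1, g2, hy, hz, rfl, hA⟩ | hU | hV
    · left
      refine ⟨k, l + 1, Q₁, Q₂, y, z * (r * s), hQ, by omega, g1, g2, hy, ?_, ?_, ?_⟩
      · rw [pow_succ, ← mul_assoc]
        exact Set.mul_mem_mul hz ht
      · rw [mul_assoc]
      · exact hA.mul_right _
    · obtain ⟨p, q, hpq, rfl⟩ := (mem_L_pow yy n r).1 hr
      obtain ⟨p', q', hpq', rfl⟩ := (mem_L_pow xx n s).1 hs
      have hUx : f₁ x₀.1 * f₁ xx = f₁ x₀.1 := by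
        rw [hU]
        obtain ⟨m', rfl⟩ : ∃ m', m = m' + 1 := ⟨m - 1, by omega⟩
        rw [pow_succ, ← mul_assoc]
        exact absorb_right H.x1 le_rfl _
      by_cases hq : N ≤ q
      · left
        refine ⟨m, 0, 1, W n, x₀, (yy ^ p, yy ^ q) * (xx ^ p', xx ^ q'), one_mul _, rfl, one_mem _,
          W_mem n, by simpa using hx₀, by simpa using ht, rfl, ?_⟩
        apply abs_xy hUx
        simpa using absorb_left H.y2 hq _
      · have hp : N ≤ p := by omega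
        by_cases hq' : N ≤ q'
        · left
          refine ⟨m, 0, L yy ^ n, L xx ^ n, x₀ * (yy ^ p, yy ^ q), (xx ^ p', xx ^ q'), rfl, rfl,
            pow_mem L_yy_mem n, pow_mem L_xx_mem n, Set.mul_mem_mul hx₀ hr, by simpa using hs,
            by rw [mul_assoc], ?_⟩
          apply abs_yx
          · simpa using absorb_right H.y1 hp _
          · simpa using absorb_left H.x2 hq' (1 : M₂)
        · right; left
          have hp' : N ≤ p' := by omega
          simp only [Prod.fst_mul, map_mul, map_pow]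
          rw [hU, pow_stab H.y1 p hp, pow_stab H.x1 p' hp', pow_succ _ m]
    · obtain ⟨p, q, hpq, rfl⟩ := (mem_L_pow yy n r).1 hr
      obtain ⟨p', q', hpq', rfl⟩ := (mem_L_pow xx n s).1 hs
      have hVx : f₂ x₀.2 * f₂ xx = f₂ x₀.2 := by
        rw [hV]
        obtain ⟨m', rfl⟩ : ∃ m', m = m' + 1 := ⟨m - 1, by omega⟩
        rw [pow_succ, ← mul_assoc]
        exact absorb_right H.x2 le_rfl _
      by_cases hp : N ≤ p
      · left
        refine ⟨m, 0, 1, W n, x₀, (yy ^ p, yy ^ q) * (xx ^ p', xx ^ q'), one_mul _, rfl, one_mem _,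
          W_mem n, by simpa using hx₀, by simpa using ht, rfl, ?_⟩
        apply abs_yx' hVx
        simpa using absorb_left H.y1 hp _
      · have hq : N ≤ q := by omega
        by_cases hp' : N ≤ p'
        · left
          refine ⟨m, 0, L yy ^ n, L xx ^ n, x₀ * (yy ^ p, yy ^ q), (xx ^ p', xx ^ q'), rfl, rfl,
            pow_mem L_yy_mem n, pow_mem L_xx_mem n, Set.mul_mem_mul hx₀ hr, by simpa using hs,
            by rw [mul_assoc], ?_⟩
          apply abs_xy'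
          · simpa using absorb_right H.y2 hq _
          · simpa using absorb_left H.x1 hp' (1 : M₁)
        · right; right
          have hq' : N ≤ q' := by omega
          simp only [Prod.snd_mul, map_mul, map_pow]
          rw [hV, pow_stab H.y2 q hq, pow_stab H.x2 q' hq', pow_succ _ m]

end Dich

end Pool.Agent.Work.MP_47bae8_lc
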