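import Pool.Agent.Work.MP_47bae8_lc.Sat

set_option autoImplicit false

open scoped Nat

namespace Pool.Agent.Work.MP_47bae8_lc

/-- `Q` in a finite monoid gives the identities with `ω`-powers -/
lemma Q_omega {M : Type} [Monoid M] [Finite M] {j : ℕ} {α β : M} (h : Q j α β) :
    (α ^ (Nat.card M)! * α = α ^ (Nat.card M)!) ∧
    ((β ^ (Nat.card M)! * α ^ (Nat.card M)!) ^ (Nat.card M)! *
      (β ^ (Nat.card M)! * α ^ (Nat.card M)!) =
      (β ^ (Nat.card M)! * α ^ (Nat.card M)!) ^ (Nat.card M)!) ∧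
    (((β ^ (Nat.card M)! * α ^ (Nat.card M)!) ^ (Nat.card M)! * β * α ^ j) ^ (Nat.card M)! *
      ((β ^ (Nat.card M)! * α ^ (Nat.card M)!) ^ (Nat.card M)! * β * α ^ j) =
      ((β ^ (Nat.card M)! * α ^ (Nat.card M)!) ^ (Nat.card M)! * β * α ^ j) ^ (Nat.card M)!) := by
  obtain ⟨N, hN⟩ := h
  set n := (Nat.card M)! * (N + 1) with hn
  have hpos : 0 < (Nat.card M)! := Nat.factorial_pos _
  have hn0 : 0 < n := Nat.mul_pos hpos (by omega)
  have hnN : N ≤ n := by
    have : N + 1 ≤ n := Nat.le_mul_of_pos_left _ hpos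
    omega
  have hp : ∀ x : M, x ^ (Nat.card M)! = x ^ n := fun x => pow_factorial x (Dvd.intro _ rfl) hn0
  obtain ⟨h1, h2, h3, h4⟩ := hN n hnN
  have hs : ∀ m : M, m ^ (N + 1) = m ^ N → m ^ n * m = m ^ n := by
    intro m hm
    rw [← pow_succ]
    exact pow_stab' hm (by omega) hnN
  simp only [hp]
  exact ⟨hs _ h1, hs _ h3, hs _ h4⟩

/-- the identities `Q` pass to the syntactic monoid -/
lemma Q_syn {A : Type} {L : Set (List A)} (h : Good L) (j : ℕ) (x y : FreeMonoid A) (hx : Lt x)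
    (hy : Lt y) : Q j (η L x) (η L y) := by
  obtain ⟨M, _, _, f, P, hP, hQ⟩ := h
  have hker : ∀ u v : FreeMonoid A, f u = f v → η L u = η L v := by
    intro u v huv
    refine (Con.eq _).2 ?_
    intro s t
    rw [hP, hP]
    simp only [FreeMonoid.ofList_append, map_mul, FreeMonoid.ofList_toList, huv]
  obtain ⟨N, hN⟩ := hQ j x y hx hy
  refine ⟨N, fun n hn => ?_⟩
  obtain ⟨h1, h2, h3, h4⟩ := hN n hn
  simp only [← map_pow, ← map_mul] at h1 h2 h3 h4 ⊢
  exact ⟨hker _ _ h1, hker _ _ h2, hker _ _ h3, hker _ _ h4⟩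

lemma Satisfies.of_two {A : Type} {L : Set (List A)} {e : OmegaTerm × OmegaTerm}
    (h : ∀ v : ℕ → Syn L, ∀ x y : FreeMonoid A, Lt x → Lt y → v 0 = η L x → v 1 = η L y →
      e.1.eval v = e.2.eval v) : Satisfies L e := by
  intro v hv
  have : ∀ i, ∃ c : FreeMonoid A, Lt c ∧ v i = η L c := by
    intro i
    rcases hv i with h | ⟨a, h⟩
    · exact ⟨1, Or.inl rfl, by rw [h, map_one]⟩
    · exact ⟨FreeMonoid.of a, Or.inr ⟨a, rfl⟩, h⟩
  obtain ⟨x, hx, hx'⟩ := this 0
  obtain ⟨y, hy, hy'⟩ := this 1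
  exact h v x y hx hy hx' hy'

lemma eval_pow {M : Type} [Monoid M] (v : ℕ → M) (t : OmegaTerm) (j : ℕ) :
    (t.pow j).eval v = (t.eval v) ^ j := by
  induction j with
  | zero => simp [OmegaTerm.pow, OmegaTerm.eval]
  | succ j ih => simp [OmegaTerm.pow, OmegaTerm.eval, ih, pow_succ]

lemma idOne_valid {A : Type} {L : Set (List A)} (h : Intermixed L) : Satisfies L idOne := by
  have := h.good.finite
  refine Satisfies.of_two fun v x y hx hy hx' hy' => ?_
  have hQ := (Q_omega (Q_syn h.good 0 x y hx hy)).1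
  simpa [idOne, stable, OmegaTerm.eval, hx', hy'] using hQ

lemma idTwo_valid {A : Type} {L : Set (List A)} (h : Intermixed L) : Satisfies L idTwo := by
  have := h.good.finite
  refine Satisfies.of_two fun v x y hx hy hx' hy' => ?_
  have hQ := (Q_omega (Q_syn h.good 0 y x hy hx)).2.1
  simpa [idTwo, stable, OmegaTerm.eval, hx', hy'] using hQ

lemma event_valid {A : Type} {L : Set (List A)} (h : Intermixed L) (j : ℕ) :
    Satisfies L (stable (eventTerm j)) := by
  have := h.good.finite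
  refine Satisfies.of_two fun v x y hx hy hx' hy' => ?_
  have hQ := (Q_omega (Q_syn h.good j x y hx hy)).2.2
  simpa [eventTerm, stable, OmegaTerm.eval, eval_pow, hx', hy'] using hQ

end Pool.Agent.Work.MP_47bae8_lc
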