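import Pool.Agent.Work.MP_47bae8_lc.Occ

set_option autoImplicit false

namespace Pool.Agent.Work.MP_47bae8_lc

/-- the letter `0` -/
def za : FreeMonoid (Fin 2) := FreeMonoid.of 0
/-- the letter `1` -/
def zb : FreeMonoid (Fin 2) := FreeMonoid.of 1

lemma toList_of_pow {A : Type} (a : A) (m : ℕ) :
    (FreeMonoid.of a ^ m).toList = List.replicate m a := by
  induction m with
  | zero => rfl
  | succ m ih => rw [pow_succ', FreeMonoid.toList_mul, ih]; rfl

/-- counting in the free monoid -/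
def oc (j : ℕ) (w : FreeMonoid (Fin 2)) : ℕ := occ j w.toList

lemma oc_one (j m : ℕ) (v : FreeMonoid (Fin 2)) :
    oc j (zb * (za ^ m * (zb * v))) = (if m = j then 1 else 0) + oc j (zb * v) := by
  rw [oc, FreeMonoid.toList_mul, FreeMonoid.toList_mul, za, toList_of_pow]
  exact occ_one j m v.toList

lemma oc_two {j : ℕ} (hj : 1 ≤ j) (v : FreeMonoid (Fin 2)) :
    oc j (zb * (zb * v)) = oc j (zb * v) := by
  have := oc_one j 0 v
  rwa [pow_zero, one_mul, if_neg (by omega), zero_add] at this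

lemma oc_rep {j : ℕ} (hj : 1 ≤ j) (m n : ℕ) (v : FreeMonoid (Fin 2)) :
    oc j (zb ^ (n + 1) * (za ^ m * (zb * v))) = (if m = j then 1 else 0) + oc j (zb * v) := by
  induction n with
  | zero => rw [zero_add, pow_one, oc_one]
  | succ n ih =>
    rw [← ih, pow_succ', mul_assoc, pow_succ' zb n, mul_assoc, oc_two hj]

lemma oc_blocks {j : ℕ} (hj : 1 ≤ j) (n k : ℕ) (hn : j < n) (v : FreeMonoid (Fin 2)) :
    oc j ((zb ^ n * za ^ n) ^ k * (zb * v)) = oc j (zb * v) := by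
  obtain ⟨n, rfl⟩ : ∃ n', n = n' + 1 := ⟨n - 1, by omega⟩
  induction k with
  | zero => rw [pow_zero, one_mul]
  | succ k ih =>
    have : (zb ^ (n + 1) * za ^ (n + 1)) ^ (k + 1) * (zb * v) =
        zb ^ (n + 1) * (za ^ (n + 1) * ((zb ^ (n + 1) * za ^ (n + 1)) ^ k * (zb * v))) := by
      rw [pow_succ']; simp only [mul_assoc]
    rw [this]
    -- the rest starts with `zb`
    obtain ⟨v', hv'⟩ : ∃ v', (zb ^ (n + 1) * za ^ (n + 1)) ^ k * (zb * v) = zb * v' := by
      cases k with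
      | zero => exact ⟨v, by simp⟩
      | succ k =>
        exact ⟨zb ^ n * za ^ (n + 1) * ((zb ^ (n + 1) * za ^ (n + 1)) ^ k * (zb * v)), by
          rw [pow_succ' (zb ^ (n + 1) * za ^ (n + 1)), pow_succ' zb n]; simp only [mul_assoc]⟩
    rw [hv', oc_rep hj, if_neg (by omega), zero_add, ← hv', ih]

/-- the word `(1^n 0^n)^n 1 0^j` -/
def tn (j n : ℕ) : FreeMonoid (Fin 2) := (zb ^ n * za ^ n) ^ n * zb * za ^ j

lemma oc_tn {j : ℕ} (hj : 1 ≤ j) (n : ℕ) (hn : j < n) (v : FreeMonoid (Fin 2)) :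
    oc j (tn j n * (zb * v)) = 1 + oc j (zb * v) := by
  have : tn j n * (zb * v) = (zb ^ n * za ^ n) ^ n * (zb * (za ^ j * (zb * v))) := by
    rw [tn]; simp only [mul_assoc]
  rw [this, oc_blocks hj n n hn, oc_one, if_pos rfl]

lemma oc_tn_pow {j : ℕ} (hj : 1 ≤ j) (n : ℕ) (hn : j < n) (k : ℕ) :
    oc j (tn j n ^ k * zb) = k := by
  induction k with
  | zero =>
    rw [pow_zero, one_mul]
    exact occ_short j _ (by simp [zb])
  | succ k ih =>
    obtain ⟨v', hv'⟩ : ∃ v', tn j n ^ k * zb = zb * v' := by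
      cases k with
      | zero => exact ⟨1, by simp⟩
      | succ k =>
        obtain ⟨n, rfl⟩ : ∃ n', n = n' + 1 := ⟨n - 1, by omega⟩
        refine ⟨zb ^ n * za ^ (n + 1) * (zb ^ (n + 1) * za ^ (n + 1)) ^ n * zb * za ^ j *
          (tn j (n + 1) ^ k * zb), ?_⟩
        rw [pow_succ' (tn j (n + 1)), tn, pow_succ' (zb ^ (n + 1) * za ^ (n + 1)), pow_succ' zb n]
        simp only [mul_assoc]
    have : tn j n ^ (k + 1) * zb = tn j n * (tn j n ^ k * zb) := by
      rw [pow_succ']; simp only [mul_assoc]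
    rw [this, hv', oc_tn hj n hn, ← hv', ih, add_comm]

/-- the languages `Lang j` are not intermixed -/
theorem Lang_not_good {j : ℕ} (hj : 1 ≤ j) : ¬ Good (Lang j) := by
  rintro ⟨M, _, _, φ, P, hP, hQ⟩
  obtain ⟨N, hN⟩ := hQ j za zb (Or.inr ⟨0, rfl⟩) (Or.inr ⟨1, rfl⟩)
  set n := max N (j + 1) with hn
  have h := (hN n (by omega)).2.2.2
  have e : φ (tn j n) = (φ zb ^ n * φ za ^ n) ^ n * φ zb * φ za ^ j := by
    simp [tn]
  rw [← e] at h
  have h2 : φ (tn j n ^ (N + 1) * zb) = φ (tn j n ^ N * zb) := by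
    rw [map_mul, map_mul, map_pow, map_pow, h]
  have h3 : (tn j n ^ (N + 1) * zb).toList ∈ Lang j ↔ (tn j n ^ N * zb).toList ∈ Lang j := by
    rw [hP, hP]
    change φ (tn j n ^ (N + 1) * zb) ∈ P ↔ φ (tn j n ^ N * zb) ∈ P
    rw [h2]
  have h4 : Even (oc j (tn j n ^ (N + 1) * zb)) ↔ Even (oc j (tn j n ^ N * zb)) := h3
  rw [oc_tn_pow hj n (by omega), oc_tn_pow hj n (by omega), Nat.even_add_one] at h4
  tauto

end Pool.Agent.Work.MP_47bae8_lc
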