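import Pool.Agent.Work.MP_47bae8_lc.Closure2

set_option autoImplicit false

open scoped Nat

namespace Pool.Agent.Work.MP_47bae8_lc

/-! ### occurrences of the factor `1 0^j 1` -/

/-- the word `1 0^j 1` -/
def pat (j : ℕ) : List (Fin 2) := 1 :: (List.replicate j 0 ++ [1])

lemma pat_length (j : ℕ) : (pat j).length = j + 2 := by simp [pat]

/-- the number of occurrences of `1 0^j 1` in a word -/
def occ (j : ℕ) : List (Fin 2) → ℕ
  | [] => 0
  | c :: w => (if pat j <+: c :: w then 1 else 0) + occ j w

/-- the number of occurrences of `1 0^j 1` in `s ++ v` starting in `s` -/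
def cnt (j : ℕ) : List (Fin 2) → List (Fin 2) → ℕ
  | [], _ => 0
  | c :: s, v => (if pat j <+: c :: (s ++ v) then 1 else 0) + cnt j s v

lemma occ_append (j : ℕ) (s v : List (Fin 2)) : occ j (s ++ v) = cnt j s v + occ j v := by
  induction s with
  | nil => simp [cnt]
  | cons c s ih => simp only [List.cons_append, occ, cnt, ih, add_assoc]

lemma occ_short (j : ℕ) (u : List (Fin 2)) (h : u.length ≤ j + 1) : occ j u = 0 := by
  induction u with
  | nil => rfl
  | cons c u ih =>
    have hu : u.length ≤ j := by simpa using h
    rw [occ, ih (by omega), if_neg]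
    intro hp
    have := hp.length_le
    rw [pat_length, List.length_cons] at this
    omega

lemma prefix_congr {j : ℕ} {p w w' : List (Fin 2)} (hp : p.length = j + 1)
    (h : w.take (j + 1) = w'.take (j + 1)) (hpw : p <+: w) : p <+: w' := by
  have h1 : p = w.take (j + 1) := by
    rw [← hp]; exact List.prefix_iff_eq_take.1 hpw
  rw [h1, h]
  exact List.take_prefix _ _

lemma cnt_congr (j : ℕ) (s : List (Fin 2)) {v v' : List (Fin 2)}
    (h : v.take (j + 1) = v'.take (j + 1)) : cnt j s v = cnt j s v' := by
  induction s with
  | nil => rfl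
  | cons c s ih =>
    rw [cnt, cnt, ih]
    congr 1
    have key : ∀ {v v' : List (Fin 2)}, v.take (j + 1) = v'.take (j + 1) →
        pat j <+: c :: (s ++ v) → pat j <+: c :: (s ++ v') := by
      intro v v' h hp
      rw [pat, List.cons_prefix_cons] at hp ⊢
      refine ⟨hp.1, prefix_congr (j := j) (by simp) ?_ hp.2⟩
      rw [List.take_append, List.take_append]
      congr 1
      have e : ∀ l : List (Fin 2), l.take (j + 1 - s.length) =
          (l.take (j + 1)).take (j + 1 - s.length) := by
        intro l
        rw [List.take_take]; congr 1; omega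
      rw [e v, e v', h]
    by_cases hp : pat j <+: c :: (s ++ v)
    · rw [if_pos hp, if_pos (key h hp)]
    · rw [if_neg hp, if_neg (fun h' => hp (key h.symm h'))]

/-- main counting lemma -/
lemma occ_congr (j : ℕ) {U V : List (Fin 2)} (hU : j + 1 ≤ U.length) (hV : j + 1 ≤ V.length)
    (h1 : U.take (j + 1) = V.take (j + 1))
    (h2 : U.drop (U.length - (j + 1)) = V.drop (V.length - (j + 1))) (s t : List (Fin 2)) :
    occ j (s ++ U ++ t) + occ j V = occ j (s ++ V ++ t) + occ j U := by
  have key : ∀ W : List (Fin 2), j + 1 ≤ W.length → occ j (s ++ W ++ t) =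
      cnt j s (W.take (j + 1)) + (occ j W + occ j (W.drop (W.length - (j + 1)) ++ t)) := by
    intro W hW
    rw [List.append_assoc, occ_append]
    congr 1
    · apply cnt_congr
      rw [List.take_append_of_le_length hW, List.take_take, min_self]
    · set k := W.length - (j + 1) with hk
      have hlen : (W.drop k).length = j + 1 := by rw [List.length_drop]; omega
      have e1 : occ j (W ++ t) = cnt j (W.take k) (W.drop k ++ t) + occ j (W.drop k ++ t) := by
        rw [← occ_append, ← List.append_assoc, List.take_append_drop]
      have e2 : occ j W = cnt j (W.take k) (W.drop k) + occ j (W.drop k) := by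
        rw [← occ_append, List.take_append_drop]
      rw [e1, e2, occ_short j (W.drop k) (by omega), add_zero]
      congr 1
      apply cnt_congr
      rw [List.take_append_of_le_length (by omega)]
  rw [key U hU, key V hV, h1, h2]
  omega

lemma occ_zero_cons (j : ℕ) (w : List (Fin 2)) : occ j (0 :: w) = occ j w := by
  rw [occ, if_neg]
  · simp
  · intro h
    rw [pat, List.cons_prefix_cons] at h
    exact absurd h.1 (by decide)

lemma occ_rep (j m : ℕ) (w : List (Fin 2)) : occ j (List.replicate m 0 ++ w) = occ j w := by
  induction m with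
  | zero => rfl
  | succ m ih => rw [List.replicate_succ, List.cons_append, occ_zero_cons, ih]

lemma rep_prefix (j m : ℕ) (w w' : List (Fin 2)) :
    (List.replicate j 0 ++ 1 :: w') <+: (List.replicate m 0 ++ 1 :: w) ↔ (m = j ∧ w' <+: w) := by
  induction j generalizing m with
  | zero =>
    cases m with
    | zero => simp [List.cons_prefix_cons]
    | succ m =>
      simp only [List.replicate_zero, List.nil_append, List.replicate_succ, List.cons_append,
        List.cons_prefix_cons]
      constructor
      · rintro ⟨h, _⟩; exact absurd h (by decide)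
      · rintro ⟨h, _⟩; exact absurd h (by omega)
  | succ j ih =>
    cases m with
    | zero =>
      simp only [List.replicate_zero, List.nil_append, List.replicate_succ, List.cons_append,
        List.cons_prefix_cons]
      constructor
      · rintro ⟨h, _⟩; exact absurd h (by decide)
      · rintro ⟨h, _⟩; exact absurd h (by omega)
    | succ m =>
      simp only [List.replicate_succ, List.cons_append, List.cons_prefix_cons, ih, true_and,
        Nat.add_right_cancel_iff]

lemma occ_one (j m : ℕ) (w : List (Fin 2)) :
    occ j (1 :: (List.replicate m 0 ++ 1 :: w)) = (if m = j then 1 else 0) + occ j (1 :: w) := by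
  rw [occ, occ_rep]
  congr 1
  have : (pat j <+: 1 :: (List.replicate m 0 ++ 1 :: w)) ↔ m = j := by
    rw [pat, List.cons_prefix_cons, rep_prefix]
    simp
  simp only [this]

lemma occ_one_rep (j m : ℕ) : occ j (1 :: List.replicate m 0) = 0 := by
  have h0 : occ j (List.replicate m 0) = 0 := by
    have := occ_rep j m []
    simpa [occ] using this
  rw [occ, h0, if_neg]
  intro h
  rw [pat, List.cons_prefix_cons] at h
  have : (1 : Fin 2) ∈ List.replicate m (0 : Fin 2) := h.2.subset (by simp)
  simp at this

/-- the language of all words with an even number of occurrences of `1 0^j 1` -/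
def Lang (j : ℕ) : Set (List (Fin 2)) := {w | Even (occ j w)}

lemma syn_of_inv (j : ℕ) {U V : List (Fin 2)} (h1 : U.take (j + 1) = V.take (j + 1))
    (h2 : U.drop (U.length - (j + 1)) = V.drop (V.length - (j + 1)))
    (h3 : Even (occ j U) ↔ Even (occ j V)) : synCon (Lang j) (FreeMonoid.ofList U)
      (FreeMonoid.ofList V) := by
  intro s t
  change s ++ U ++ t ∈ _ ↔ s ++ V ++ t ∈ _
  by_cases hU : j + 1 ≤ U.length
  · have hV : j + 1 ≤ V.length := by
      have := congrArg List.length h1
      simp only [List.length_take] at this
      omega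
    have := occ_congr j hU hV h1 h2 s t
    have e1 : Even (occ j (s ++ U ++ t) + occ j V) ↔ Even (occ j (s ++ V ++ t) + occ j U) := by
      rw [this]
    rw [Nat.even_add, Nat.even_add] at e1
    simp only [Lang, Set.mem_ofPred_eq]
    tauto
  · have hV : V.length ≤ j := by
      have := congrArg List.length h1
      simp only [List.length_take] at this
      omega
    rw [List.take_of_length_le (by omega), List.take_of_length_le (by omega)] at h1
    rw [h1]

instance finite_syn (j : ℕ) : Finite (Syn (Lang j)) := by
  let T := {l : List (Fin 2) | l.length ≤ j + 1}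
  have hT : Finite T := (List.finite_length_le (Fin 2) (j + 1)).to_subtype
  let g : Syn (Lang j) → T × T × Prop := fun q =>
    let U : List (Fin 2) := (Function.surjInv Con.mk'_surjective q : FreeMonoid (Fin 2)).toList
    (⟨U.take (j + 1), by simp [T]⟩, ⟨U.drop (U.length - (j + 1)), by simp [T]; omega⟩,
      Even (occ j U))
  refine Finite.of_injective g ?_
  intro q q' h
  simp only [g, Prod.mk.injEq, Subtype.mk.injEq, eq_iff_iff] at h
  obtain ⟨h1, h2, h3⟩ := h
  have h4 := syn_of_inv j h1 h2 h3
  have h5 : (synCon (Lang j)).mk' (Function.surjInv Con.mk'_surjective q) =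
      (synCon (Lang j)).mk' (Function.surjInv Con.mk'_surjective q') := (Con.eq _).2 h4
  have e := Function.surjInv_eq (f := (synCon (Lang j)).mk') Con.mk'_surjective q
  have e' := Function.surjInv_eq (f := (synCon (Lang j)).mk') Con.mk'_surjective q'
  exact e.symm.trans (h5.trans e')

/-- a language with finite syntactic monoid is regular -/
lemma regular_of_finite {A : Type} (L : Language A) [Finite (Syn (L : Set (List A)))] :
    L.IsRegular := by
  refine ⟨Syn (L : Set (List A)), Fintype.ofFinite _,
    ⟨fun q a => q * η L (FreeMonoid.of a), 1, {q | ∃ w : List A, w ∈ L ∧ q = η L (FreeMonoid.ofList w)}⟩, ?_⟩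
  have hev : ∀ w : List A, DFA.evalFrom (⟨fun q a => q * η L (FreeMonoid.of a), 1,
      {q | ∃ w : List A, w ∈ L ∧ q = η L (FreeMonoid.ofList w)}⟩ : DFA A (Syn (L : Set (List A)))) 1 w = η L (FreeMonoid.ofList w) := by
    intro w
    induction w using List.reverseRecOn with
    | nil => rfl
    | append_singleton w a ih =>
      rw [DFA.evalFrom_append_singleton, ih]
      change η L _ * η L _ = _
      rw [← map_mul, FreeMonoid.ofList_append]
      rfl
  ext w
  rw [DFA.mem_accepts]
  change DFA.evalFrom _ 1 w ∈ _ ↔ _
  rw [hev]
  constructor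
  · rintro ⟨w', hw', h⟩
    have := (Con.eq _).1 h
    have h2 := this [] []
    simp only [List.nil_append, List.append_nil] at h2
    exact h2.2 hw'
  · intro hw
    exact ⟨w, hw, rfl⟩

end Pool.Agent.Work.MP_47bae8_lc
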