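import Pool.Agent.Work.MP_47bae8_lc.NotIm

set_option autoImplicit false

open scoped Nat

namespace Pool.Agent.Work.MP_47bae8_lc

/-- replacing `ω` by `K` -/
def OmegaTerm.expand {M : Type} [Monoid M] (K : ℕ) (v : ℕ → M) : OmegaTerm → M
  | .one => 1
  | .var i => v i
  | .mul s t => s.expand K v * t.expand K v
  | .omega t => (t.expand K v) ^ K

/-- powers in a finite monoid -/
lemma pow_factorial {M : Type} [Monoid M] [Finite M] (x : M) {K : ℕ} (hK : (Nat.card M)! ∣ K)
    (hK0 : 0 < K) : x ^ (Nat.card M)! = x ^ K := by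
  have : Fintype M := Fintype.ofFinite M
  obtain ⟨i, k, hlt', hk, he⟩ : ∃ i k : ℕ, i < k ∧ k < Fintype.card M + 1 ∧ x ^ i = x ^ k := by
    obtain ⟨i, k, hik, he⟩ := Fintype.exists_ne_map_eq_of_card_lt
      (fun k : Fin (Fintype.card M + 1) => x ^ (k : ℕ)) (by simp)
    rcases lt_or_gt_of_ne hik with h | h
    · exact ⟨i, k, h, k.2, he⟩
    · exact ⟨k, i, h, i.2, he.symm⟩
  rw [Nat.card_eq_fintype_card] at hK ⊢
  set m := Fintype.card M
  set d := (k : ℕ) - i with hd
  have hper : ∀ n c, (i : ℕ) ≤ n → x ^ (n + d * c) = x ^ n := by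
    intro n c hn
    induction c with
    | zero => simp
    | succ c ih =>
      have e1 : n + d * (c + 1) = (n - i + d * c) + k := by
        rw [mul_add, mul_one]; omega
      have e2 : n + d * c = (n - i + d * c) + i := by omega
      rw [← ih, e1, e2, pow_add, pow_add _ _ (i : ℕ)]
      rw [he]
  obtain ⟨c, rfl⟩ := hK
  have hc : c ≠ 0 := by rintro rfl; simp at hK0
  obtain ⟨c, rfl⟩ : ∃ c', c = c' + 1 := ⟨c - 1, by omega⟩
  have hdvd : d ∣ m ! := Nat.dvd_factorial (by omega) (by omega)
  obtain ⟨q, hq⟩ := hdvd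
  have hle : (i : ℕ) ≤ m ! := le_trans (by omega) (Nat.self_le_factorial m)
  have e : m ! * (c + 1) = m ! + d * (q * c) := by
    rw [mul_add, mul_one, ← mul_assoc, ← hq, add_comm]
  rw [e, hper _ _ hle]

lemma eval_eq {A : Type} (L : Set (List A)) [Finite (Syn L)] {K : ℕ}
    (hK : (Nat.card (Syn L))! ∣ K) (hK0 : 0 < K) (c : ℕ → FreeMonoid A) (t : OmegaTerm) :
    t.eval (fun i => η L (c i)) = η L (t.expand K c) := by
  induction t with
  | one => simp [OmegaTerm.eval, OmegaTerm.expand]
  | var i => simp [OmegaTerm.eval, OmegaTerm.expand]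
  | mul s t ihs iht => simp [OmegaTerm.eval, OmegaTerm.expand, ihs, iht]
  | omega t ih => simp only [OmegaTerm.eval, OmegaTerm.expand, ih, map_pow, pow_factorial _ hK hK0]

lemma Good.finite {A : Type} {L : Set (List A)} (h : Good L) : Finite (Syn L) := by
  obtain ⟨M, _, _, f, P, hP, _⟩ := h
  refine Finite.of_injective (fun q : Syn L => f (Function.surjInv Con.mk'_surjective q)) ?_
  intro q q' h
  have h4 : synCon L (Function.surjInv Con.mk'_surjective q)
      (Function.surjInv Con.mk'_surjective q') := by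
    intro s t
    rw [hP, hP]
    have h' : f (Function.surjInv Con.mk'_surjective q) =
      f (Function.surjInv Con.mk'_surjective q') := h
    simp only [FreeMonoid.ofList_append, map_mul, FreeMonoid.ofList_toList, h']
  have h5 : (synCon L).mk' (Function.surjInv Con.mk'_surjective q) =
      (synCon L).mk' (Function.surjInv Con.mk'_surjective q') := (Con.eq _).2 h4
  have e := Function.surjInv_eq (f := (synCon L).mk') Con.mk'_surjective q
  have e' := Function.surjInv_eq (f := (synCon L).mk') Con.mk'_surjective q'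
  exact e.symm.trans (h5.trans e')

/-! ### runs in expansions -/

/-- words starting and ending with `1` all of whose inner runs of `0` have length in `G` -/
inductive Mid (G : ℕ → Prop) : FreeMonoid (Fin 2) → Prop
  | single : Mid G zb
  | cons (m : ℕ) (w : FreeMonoid (Fin 2)) : G m → Mid G w → Mid G (zb * (za ^ m * w))

lemma Mid.append {G : ℕ → Prop} {u w : FreeMonoid (Fin 2)} (hu : Mid G u) {m : ℕ} (hm : G m)
    (hw : Mid G w) : Mid G (u * (za ^ m * w)) := by
  induction hu with
  | single => exact Mid.cons m w hm hw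
  | cons m' u' hm' _ ih =>
    have : zb * (za ^ m' * u') * (za ^ m * w) = zb * (za ^ m' * (u' * (za ^ m * w))) := by
      simp only [mul_assoc]
    rw [this]
    exact Mid.cons m' _ hm' ih

lemma Mid.mono {G G' : ℕ → Prop} (h : ∀ m, G m → G' m) {u : FreeMonoid (Fin 2)}
    (hu : Mid G u) : Mid G' u := by
  induction hu with
  | single => exact Mid.single
  | cons m u hm _ ih => exact Mid.cons m u (h m hm) ih

lemma Mid.starts {G : ℕ → Prop} {u : FreeMonoid (Fin 2)} (hu : Mid G u) : ∃ v, u = zb * v := by
  cases hu with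
  | single => exact ⟨1, (mul_one _).symm⟩
  | cons m u hm _ => exact ⟨_, rfl⟩

lemma Mid.oc {G : ℕ → Prop} {j : ℕ} (hj : ¬ G j) {u : FreeMonoid (Fin 2)} (hu : Mid G u) (s : ℕ) :
    oc j (u * za ^ s) = 0 := by
  induction hu with
  | single =>
    rw [Pool.Agent.Work.MP_47bae8_lc.oc, FreeMonoid.toList_mul, za, toList_of_pow]
    exact occ_one_rep j s
  | cons m u hm hu ih =>
    obtain ⟨v, rfl⟩ := hu.starts
    have : zb * (za ^ m * (zb * v)) * za ^ s = zb * (za ^ m * (zb * (v * za ^ s))) := by
      simp only [mul_assoc]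
    rw [this, oc_one, if_neg (by rintro rfl; exact hj hm), zero_add, ← mul_assoc, ih]

lemma oc_za (j p : ℕ) (v : FreeMonoid (Fin 2)) : oc j (za ^ p * v) = oc j v := by
  rw [oc, FreeMonoid.toList_mul, za, toList_of_pow]
  exact occ_rep j p _

/-- admissible run lengths -/
def Gd (c K m : ℕ) : Prop := m ≤ c ∨ K ≤ m

lemma Gd.mono {c c' K m : ℕ} (h : c ≤ c') (hm : Gd c K m) : Gd c' K m := by
  rcases hm with hm | hm
  · exact Or.inl (hm.trans h)
  · exact Or.inr hm

/-- the run invariant -/
def R (c K : ℕ) (w : FreeMonoid (Fin 2)) : Prop :=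
  (∃ m, Gd c K m ∧ w = za ^ m) ∨
  (∃ p s u, Mid (Gd c K) u ∧ Gd c K p ∧ Gd c K s ∧ (p < K → s < K → p + s ≤ c) ∧
    w = za ^ p * (u * za ^ s))

lemma R.oc {c K j : ℕ} {w : FreeMonoid (Fin 2)} (hw : R c K w) (hcj : c < j) (hjK : j < K) :
    oc j w = 0 := by
  have hj : ¬ Gd c K j := by unfold Gd; omega
  rcases hw with ⟨m, _, rfl⟩ | ⟨p, s, u, hu, _, _, _, rfl⟩
  · have := oc_za j m 1
    rw [mul_one] at this
    rw [this]; rfl
  · rw [oc_za, hu.oc hj]

lemma R.mul {c c' K : ℕ} {w w' : FreeMonoid (Fin 2)} (h : R c K w) (h' : R c' K w') :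
    R (c + c') K (w * w') := by
  rcases h with ⟨m, hm, rfl⟩ | ⟨p, s, u, hu, hp, hs, hps, rfl⟩
  · rcases h' with ⟨m', hm', rfl⟩ | ⟨p', s', u', hu', hp', hs', hps', rfl⟩
    · left
      refine ⟨m + m', ?_, by rw [pow_add]⟩
      unfold Gd at *; omega
    · right
      refine ⟨m + p', s', u', hu'.mono (fun _ h => h.mono (by omega)), ?_, hs'.mono (by omega), ?_,
        ?_⟩
      · unfold Gd at *; omega
      · unfold Gd at *; intro h1 h2
        have := hps' (by omega) h2
        omega
      · rw [pow_add]; simp only [mul_assoc]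
  · rcases h' with ⟨m', hm', rfl⟩ | ⟨p', s', u', hu', hp', hs', hps', rfl⟩
    · right
      refine ⟨p, s + m', u, hu.mono (fun _ h => h.mono (by omega)), hp.mono (by omega), ?_, ?_, ?_⟩
      · unfold Gd at *; omega
      · unfold Gd at *; intro h1 h2
        have := hps h1 (by omega)
        omega
      · rw [pow_add]; simp only [mul_assoc]
    · right
      refine ⟨p, s', u * (za ^ (s + p') * u'), ?_, hp.mono (by omega), hs'.mono (by omega), ?_, ?_⟩
      · refine (hu.mono (fun _ h => h.mono (by omega))).append ?_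
          (hu'.mono (fun _ h => h.mono (by omega)))
        unfold Gd at *; omega
      · unfold Gd at *; intro h1 h2
        omega
      · rw [pow_add]; simp only [mul_assoc]

lemma R.pow {c K : ℕ} (hK : 0 < K) {w : FreeMonoid (Fin 2)} (h : R c K w) : R c K (w ^ K) := by
  rcases h with ⟨m, hm, rfl⟩ | ⟨p, s, u, hu, hp, hs, hps, rfl⟩
  · left
    refine ⟨m * K, ?_, by rw [pow_mul]⟩
    by_cases h0 : m = 0
    · subst h0; left; omega
    · right; exact Nat.le_mul_of_pos_left _ (by omega)
  · right
    have key : ∀ k, 1 ≤ k → ∃ u', Mid (Gd c K) u' ∧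
        (za ^ p * (u * za ^ s)) ^ k = za ^ p * (u' * za ^ s) := by
      intro k hk
      induction k, hk using Nat.le_induction with
      | base => exact ⟨u, hu, by rw [pow_one]⟩
      | succ k hk ih =>
        obtain ⟨u', hu', he⟩ := ih
        refine ⟨u' * (za ^ (s + p) * u), hu'.append ?_ hu, ?_⟩
        · by_cases h1 : p < K
          · by_cases h2 : s < K
            · left; have := hps h1 h2; omega
            · right; omega
          · right; omega
        · rw [pow_succ, he, pow_add]; simp only [mul_assoc]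
    obtain ⟨u', hu', he⟩ := key K hK
    exact ⟨p, s, u', hu', hp, hs, hps, he⟩

lemma R_expand {K : ℕ} (hK : 0 < K) (c : ℕ → FreeMonoid (Fin 2)) (hc : ∀ i, Lt (c i))
    (t : OmegaTerm) : R t.size K (t.expand K c) := by
  induction t with
  | one => exact Or.inl ⟨0, Or.inl le_rfl, by rw [pow_zero]; rfl⟩
  | var i =>
    rcases hc i with h | ⟨a, h⟩
    · left
      exact ⟨0, Or.inl (Nat.zero_le _), by rw [pow_zero]; exact h⟩
    · rcases (show a = 0 ∨ a = 1 by omega) with rfl | rfl
      · left
        exact ⟨1, Or.inl le_rfl, by rw [pow_one]; exact h⟩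
      · right
        refine ⟨0, 0, zb, Mid.single, Or.inl (Nat.zero_le _), Or.inl (Nat.zero_le _),
          fun _ _ => Nat.zero_le _, ?_⟩
        rw [pow_zero, one_mul, mul_one]; exact h
  | mul s t ihs iht => exact ihs.mul iht
  | omega t ih => exact ih.pow hK

/-! ### test languages -/

lemma im_nonempty : Intermixed ({w | w ≠ []} : Set (List (Fin 2))) := by
  have huniv : Intermixed (Set.univ : Set (List (Fin 2))) := by
    have := Intermixed.union (Intermixed.letter (0 : Fin 2)) (Intermixed.letter (0 : Fin 2)).compl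
    rwa [Set.union_compl_self] at this
  have := Intermixed.union (Intermixed.conc (Intermixed.letter (0 : Fin 2)) huniv)
    (Intermixed.conc (Intermixed.letter (1 : Fin 2)) huniv)
  convert this using 1
  ext w
  simp only [Set.mem_ofPred_eq, Set.mem_union, conc, Set.mem_singleton_iff, Set.mem_univ, true_and,
    exists_eq_left]
  cases w with
  | nil => simp
  | cons a w =>
    rcases (show a = 0 ∨ a = 1 by omega) with rfl | rfl
    · simp
    · simp

lemma im_univ : Intermixed (Set.univ : Set (List (Fin 2))) := by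
  have := Intermixed.union (Intermixed.letter (0 : Fin 2)) (Intermixed.letter (0 : Fin 2)).compl
  rwa [Set.union_compl_self] at this

lemma im_single (p : List (Fin 2)) : Intermixed ({p} : Set (List (Fin 2))) := by
  induction p with
  | nil =>
    have := im_nonempty.compl
    convert this using 1
    ext w; simp
  | cons a p ih =>
    have := Intermixed.conc (Intermixed.letter a) ih
    convert this using 1
    ext w; simp [conc]

lemma im_prefix (p : List (Fin 2)) : Intermixed ({w | p <+: w} : Set (List (Fin 2))) := by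
  have := Intermixed.conc (im_single p) im_univ
  convert this using 1
  ext w
  simp only [Set.mem_ofPred_eq, conc, Set.mem_singleton_iff, exists_eq_left, Set.mem_univ, true_and]
  constructor
  · rintro ⟨v, rfl⟩; exact ⟨v, rfl⟩
  · rintro ⟨v, rfl⟩; exact ⟨v, rfl⟩

lemma im_suffix (p : List (Fin 2)) : Intermixed ({w | p <:+ w} : Set (List (Fin 2))) := by
  have := Intermixed.conc im_univ (im_single p)
  convert this using 1
  ext w
  simp only [Set.mem_ofPred_eq, conc, Set.mem_singleton_iff, exists_eq_left, Set.mem_univ, true_and]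
  constructor
  · rintro ⟨v, rfl⟩; exact ⟨v, rfl⟩
  · rintro ⟨v, rfl⟩; exact ⟨v, rfl⟩

lemma test {T : Set (List (Fin 2))} (hT : Intermixed T) {K : ℕ}
    (hK : (Nat.card (Syn T))! ∣ K) (hK0 : 0 < K) {e : OmegaTerm × OmegaTerm}
    (he : Satisfies T e) (c : ℕ → FreeMonoid (Fin 2)) (hc : ∀ i, Lt (c i)) :
    (e.1.expand K c).toList ∈ T ↔ (e.2.expand K c).toList ∈ T := by
  have := hT.good.finite
  have h := he (fun i => η T (c i)) (by
    intro i
    rcases hc i with h | ⟨a, h⟩
    · left; rw [h, map_one]
    · right; exact ⟨a, by rw [h]⟩)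
  rw [eval_eq T hK hK0, eval_eq T hK hK0] at h
  have h2 := (Con.eq _).1 h [] []
  simpa only [List.nil_append, List.append_nil] using h2

/-- a valid identity of size less than `j` is satisfied by `Lang j` -/
theorem Lang_satisfies {j : ℕ} {e : OmegaTerm × OmegaTerm} (h1 : e.1.size < j) (h2 : e.2.size < j)
    (he : ∀ K : Set (List (Fin 2)), Intermixed K → Satisfies K e) : Satisfies (Lang j) e := by
  intro v hv
  -- representatives
  have : ∀ i, ∃ c : FreeMonoid (Fin 2), Lt c ∧ v i = η (Lang j) c := by
    intro i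
    rcases hv i with h | ⟨a, h⟩
    · exact ⟨1, Or.inl rfl, by rw [h, map_one]⟩
    · exact ⟨FreeMonoid.of a, Or.inr ⟨a, rfl⟩, h⟩
  choose c hc hvc using this
  obtain rfl : v = fun i => η (Lang j) (c i) := funext hvc
  -- a common exponent
  let TT : List (Fin 2) → Set (List (Fin 2)) × Set (List (Fin 2)) × Set (List (Fin 2)) :=
    fun p => ({p}, {w | p <+: w}, {w | p <:+ w})
  have hfin : (Set.range fun p : {l : List (Fin 2) | l.length ≤ j + 1} =>
      Nat.card (Syn (TT p).1) + Nat.card (Syn (TT p).2.1) + Nat.card (Syn (TT p).2.2)).Finite := by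
    have hT : Finite {l : List (Fin 2) | l.length ≤ j + 1} :=
      (List.finite_length_le (Fin 2) (j + 1)).to_subtype
    exact Set.finite_range _
  obtain ⟨B, hB⟩ := hfin.bddAbove
  have hB' : ∀ p : List (Fin 2), p.length ≤ j + 1 →
      Nat.card (Syn (TT p).1) + Nat.card (Syn (TT p).2.1) + Nat.card (Syn (TT p).2.2) ≤ B := by
    intro p hp
    exact hB ⟨⟨p, hp⟩, rfl⟩
  set N := B + Nat.card (Syn (Lang j)) + j + 1 with hN
  have hK0 : 0 < N ! := Nat.factorial_pos N
  have hjK : j < N ! := lt_of_lt_of_le (by omega) (Nat.self_le_factorial N)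
  rw [eval_eq (Lang j) (Nat.factorial_dvd_factorial (by omega)) hK0,
    eval_eq (Lang j) (Nat.factorial_dvd_factorial (by omega)) hK0]
  set U := e.1.expand (N !) c with hU
  set V := e.2.expand (N !) c with hV
  have tst : ∀ T : Set (List (Fin 2)), Intermixed T → Nat.card (Syn T) ≤ B →
      (U.toList ∈ T ↔ V.toList ∈ T) := by
    intro T hT hTB
    exact test hT (Nat.factorial_dvd_factorial (by omega)) hK0 (he T hT) c hc
  have tst1 : ∀ p : List (Fin 2), p.length ≤ j + 1 → (U.toList = p ↔ V.toList = p) := by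
    intro p hp
    have h3 := hB' p hp
    exact tst {p} (im_single p) (by
      have : Nat.card (Syn (TT p).1) = Nat.card (Syn ({p} : Set (List (Fin 2)))) := rfl
      omega)
  have tst2 : ∀ p : List (Fin 2), p.length ≤ j + 1 → (p <+: U.toList ↔ p <+: V.toList) := by
    intro p hp
    have h3 := hB' p hp
    exact tst {w | p <+: w} (im_prefix p) (by
      have : Nat.card (Syn (TT p).2.1) = Nat.card (Syn ({w | p <+: w} : Set (List (Fin 2)))) := rfl
      omega)
  have tst3 : ∀ p : List (Fin 2), p.length ≤ j + 1 → (p <:+ U.toList ↔ p <:+ V.toList) := by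
    intro p hp
    have h3 := hB' p hp
    exact tst {w | p <:+ w} (im_suffix p) (by
      have : Nat.card (Syn (TT p).2.2) = Nat.card (Syn ({w | p <:+ w} : Set (List (Fin 2)))) := rfl
      omega)
  by_cases hUl : U.toList.length ≤ j
  · have := (tst1 U.toList (by omega)).1 rfl
    have h3 : V = U := this
    rw [h3]
  by_cases hVl : V.toList.length ≤ j
  · have := (tst1 V.toList (by omega)).2 rfl
    have h3 : U = V := this
    rw [h3]
  have hoU : occ j U.toList = 0 := (R_expand hK0 c hc e.1).oc h1 hjK
  have hoV : occ j V.toList = 0 := (R_expand hK0 c hc e.2).oc h2 hjK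
  refine (Con.eq _).2 (syn_of_inv j (U := U.toList) (V := V.toList) ?_ ?_ ?_)
  · have h3 := (tst2 (U.toList.take (j + 1)) (by simp)).1 (List.take_prefix _ _)
    have h4 := List.prefix_iff_eq_take.1 h3
    rw [h4, List.length_take]
    congr 1
    omega
  · have h3 := (tst3 (U.toList.drop (U.toList.length - (j + 1))) (by simp; omega)).1
      (List.drop_suffix _ _)
    have h4 := List.suffix_iff_eq_drop.1 h3
    rw [h4, List.length_drop]
    congr 1
    omega
  · rw [hoU, hoV]

end Pool.Agent.Work.MP_47bae8_lc
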