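import Pool.Agent.Work.MP_47bae8_lc.Core

set_option autoImplicit false

open scoped Pointwise

namespace Pool.Agent.Work.MP_47bae8_lc

section Steps
variable {M₁ M₂ : Type*} [Monoid M₁] [Monoid M₂] {f₁ : F →* M₁} {f₂ : F →* M₂}

/-- H1 -/
lemma step_letter {c : F} {N : ℕ} (h1 : f₁ c ^ (N + 1) = f₁ c ^ N) (h2 : f₂ c ^ (N + 1) = f₂ c ^ N)
    {k : ℕ} (hk : 2 * N ≤ k) {x : F × F} (hx : x ∈ L c ^ k) :
    ∃ w ∈ L c ^ (k + 1), val f₁ f₂ w = val f₁ f₂ x := by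
  obtain ⟨i, l, hil, rfl⟩ := (mem_L_pow c k x).1 hx
  by_cases hi : N ≤ i
  · refine ⟨(c ^ (i + 1), c ^ l), (mem_L_pow c _ _).2 ⟨i + 1, l, by omega, rfl⟩, ?_⟩
    simp only [val, map_pow]
    rw [pow_stab' h1 (k := i + 1) (l := i) (by omega) (by omega)]
  · refine ⟨(c ^ i, c ^ (l + 1)), (mem_L_pow c _ _).2 ⟨i, l + 1, by omega, rfl⟩, ?_⟩
    simp only [val, map_pow]
    rw [pow_stab' h2 (k := l + 1) (l := l) (by omega) (by omega)]

/-- the word `y^n x^n` -/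
def wd (n : ℕ) : F := yy ^ n * xx ^ n

lemma L_pow_left (c : F) (n : ℕ) : (c ^ n, (1 : F)) ∈ L c ^ n :=
  (mem_L_pow c n _).2 ⟨n, 0, by omega, by simp⟩

lemma L_pow_right (c : F) (n : ℕ) : ((1 : F), c ^ n) ∈ L c ^ n :=
  (mem_L_pow c n _).2 ⟨0, n, by omega, by simp⟩

lemma wd_mem_left (n : ℕ) : (wd n, (1 : F)) ∈ W n := by
  refine Set.mem_mul.2 ⟨_, L_pow_left yy n, _, L_pow_left xx n, ?_⟩
  simp [wd]

lemma wd_mem_right (n : ℕ) : ((1 : F), wd n) ∈ W n := by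
  refine Set.mem_mul.2 ⟨_, L_pow_right yy n, _, L_pow_right xx n, ?_⟩
  simp [wd]

lemma pow_mem_left {w : F} {X : Set (F × F)} (h : (w, (1 : F)) ∈ X) (m : ℕ) :
    (w ^ m, (1 : F)) ∈ X ^ m := by
  have := Set.pow_mem_pow h (n := m)
  simpa using this

lemma pow_mem_right {w : F} {X : Set (F × F)} (h : ((1 : F), w) ∈ X) (m : ℕ) :
    ((1 : F), w ^ m) ∈ X ^ m := by
  have := Set.pow_mem_pow h (n := m)
  simpa using this

/-- expandable distributions of `W^m` can be expanded, inside any context -/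
lemma expand {n m : ℕ} {x : F × F} {k l : ℕ} {Q₁ Q₂ : Set (F × F)} {y z : F × F}
    (hQ : Q₁ * Q₂ = W n) (hkl : k + l + 1 = m) (g1 : Q₁ ∈ GG) (g2 : Q₂ ∈ GG)
    (hy : y ∈ W n ^ k * Q₁) (hz : z ∈ Q₂ * W n ^ l) (hx : x = y * z) (hA : Abs f₁ f₂ y z) :
    ∀ R ∈ GG, ∃ w ∈ W n ^ m * R * W n ^ m, val f₁ f₂ w = val f₁ f₂ x := by
  intro R hR
  subst hx
  obtain ⟨w, hw, hv⟩ := hA.insert (C := Q₂ * W n ^ l * R * (W n ^ k * Q₁)) hy hz
    (mul_mem (mul_mem (mul_mem g2 (pow_mem (W_mem n) l)) hR) (mul_mem (pow_mem (W_mem n) k) g1))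
  refine ⟨w, ?_, hv⟩
  have e : W n ^ k * Q₁ * (Q₂ * W n ^ l * R * (W n ^ k * Q₁)) * (Q₂ * W n ^ l) =
      W n ^ m * R * W n ^ m := by
    have e1 : W n ^ k * Q₁ * (Q₂ * W n ^ l) = W n ^ m := by
      rw [mul_assoc, ← mul_assoc Q₁, hQ, ← pow_succ', ← pow_add, ← hkl, add_assoc]
    calc W n ^ k * Q₁ * (Q₂ * W n ^ l * R * (W n ^ k * Q₁)) * (Q₂ * W n ^ l)
        = (W n ^ k * Q₁ * (Q₂ * W n ^ l)) * R * (W n ^ k * Q₁ * (Q₂ * W n ^ l)) := by
          simp only [mul_assoc]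
      _ = _ := by rw [e1]
  rw [← e]; exact hw

/-- H2 -/
lemma step_W {N n m : ℕ} (H : Hyp f₁ f₂ N) (hn : 2 * N ≤ n) (hm : N ≤ m) (hm1 : 1 ≤ m)
    (h1 : (f₁ yy ^ n * f₁ xx ^ n) ^ (N + 1) = (f₁ yy ^ n * f₁ xx ^ n) ^ N)
    (h2 : (f₂ yy ^ n * f₂ xx ^ n) ^ (N + 1) = (f₂ yy ^ n * f₂ xx ^ n) ^ N)
    {x : F × F} (hx : x ∈ W n ^ m) :
    ∃ w ∈ W n ^ (m + 1), val f₁ f₂ w = val f₁ f₂ x := by
  rcases dichotomy H hn m hm1 x hx with
    ⟨k, l, Q₁, Q₂, y, z, hQ, hkl, g1, g2, hy, hz, hxyz, hA⟩ | hU | hV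
  · subst hxyz
    obtain ⟨w, hw, hv⟩ := hA.insert (C := Q₂ * Q₁) hy hz (mul_mem g2 g1)
    refine ⟨w, ?_, hv⟩
    have e : W n ^ k * Q₁ * (Q₂ * Q₁) * (Q₂ * W n ^ l) = W n ^ (m + 1) := by
      calc W n ^ k * Q₁ * (Q₂ * Q₁) * (Q₂ * W n ^ l)
          = W n ^ k * (Q₁ * Q₂) * (Q₁ * Q₂) * W n ^ l := by simp only [mul_assoc]
        _ = _ := by
          rw [hQ, ← pow_succ, ← pow_succ, ← pow_add]; congr 1; omega
    rw [← e]; exact hw
  · refine ⟨x * (wd n, 1), ?_, ?_⟩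
    · rw [pow_succ]; exact Set.mul_mem_mul hx (wd_mem_left n)
    · have e1 : f₁ yy ^ n * f₁ xx ^ n = f₁ yy ^ N * f₁ xx ^ N := by
        rw [pow_stab H.y1 n (by omega), pow_stab H.x1 n (by omega)]
      rw [e1] at h1
      simp only [val, Prod.fst_mul, Prod.snd_mul, map_mul, wd, map_pow, mul_one, e1, hU]
      rw [← pow_succ, pow_stab' h1 (k := m + 1) (l := m) (by omega) hm]
  · refine ⟨x * (1, wd n), ?_, ?_⟩
    · rw [pow_succ]; exact Set.mul_mem_mul hx (wd_mem_right n)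
    · have e1 : f₂ yy ^ n * f₂ xx ^ n = f₂ yy ^ N * f₂ xx ^ N := by
        rw [pow_stab H.y2 n (by omega), pow_stab H.x2 n (by omega)]
      rw [e1] at h2
      simp only [val, Prod.fst_mul, Prod.snd_mul, map_mul, wd, map_pow, mul_one, e1, hV]
      rw [← pow_succ, pow_stab' h2 (k := m + 1) (l := m) (by omega) hm]

/-- a short word can be extracted from `W^m` without changing the value of the rest -/
lemma extract {N n : ℕ} (H : Hyp f₁ f₂ N) (hn : N + 1 ≤ n) (r : List Bool) :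
    ∀ m, r.length ≤ m → ∃ d ∈ W n ^ m, d.2 = FreeMonoid.ofList r ∧
      f₁ d.1 = (f₁ yy ^ N * f₁ xx ^ N) ^ m := by
  induction r with
  | nil =>
    intro m _
    refine ⟨(wd n ^ m, 1), pow_mem_left (wd_mem_left n) m, rfl, ?_⟩
    simp only [map_pow, wd, map_mul]
    rw [pow_stab H.y1 n (by omega), pow_stab H.x1 n (by omega)]
  | cons c r ih =>
    intro m hm
    obtain ⟨m, rfl⟩ : ∃ m', m = m' + 1 := ⟨m - 1, by simp at hm; omega⟩
    obtain ⟨d, hd, hd2, hd1⟩ := ih m (by simpa using hm)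
    cases c with
    | true =>
      refine ⟨(yy ^ n, 1) * (xx ^ (n - 1), xx) * d, ?_, ?_, ?_⟩
      · rw [pow_succ']
        refine Set.mul_mem_mul (Set.mul_mem_mul (L_pow_left yy n) ?_) hd
        exact (mem_L_pow xx n _).2 ⟨n - 1, 1, by omega, by simp⟩
      · simp only [Prod.snd_mul, hd2, one_mul]
        rfl
      · simp only [Prod.fst_mul, map_mul, map_pow, hd1]
        rw [pow_stab H.y1 n (by omega), pow_stab H.x1 (n - 1) (by omega), pow_succ']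
    | false =>
      refine ⟨(yy ^ (n - 1), yy) * (xx ^ n, 1) * d, ?_, ?_, ?_⟩
      · rw [pow_succ']
        refine Set.mul_mem_mul (Set.mul_mem_mul ?_ (L_pow_left xx n)) hd
        exact (mem_L_pow yy n _).2 ⟨n - 1, 1, by omega, by simp⟩
      · simp only [Prod.snd_mul, hd2, mul_one]
        rfl
      · simp only [Prod.fst_mul, map_mul, map_pow, hd1]
        rw [pow_stab H.y1 (n - 1) (by omega), pow_stab H.x1 n (by omega), pow_succ']

/-- the distributions of `y x^j` -/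
def E (j : ℕ) : Set (F × F) := L yy * L xx ^ j

lemma E_mem (j : ℕ) : E j ∈ GG := mul_mem L_yy_mem (pow_mem L_xx_mem j)

/-- the distributions of `(y^n x^n)^n y x^j` -/
def T (j n : ℕ) : Set (F × F) := W n ^ n * E j

lemma T_eq {j n s s' : ℕ} (h : s + s' = n) : W n ^ s * W n ^ s' * E j = T j n := by
  rw [T, ← pow_add, h]

/-- the word `(y^n x^n)^n y x^j` -/
def tw (j n : ℕ) : F := wd n ^ n * (yy * xx ^ j)

/-- elements of `L c` with trivial second component -/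
lemma T_pow_left {j n q : ℕ} {g : F × F} (hg : g ∈ T j n ^ q) (h2 : g.2 = 1) :
    g.1 = tw j n ^ q := by
  -- all sets of the form: if second component is trivial then first is determined
  have key : ∀ {X Y : Set (F × F)} {a b : F}, (∀ g ∈ X, g.2 = 1 → g.1 = a) →
      (∀ g ∈ Y, g.2 = 1 → g.1 = b) → (∀ g ∈ X * Y, g.2 = 1 → g.1 = a * b) := by
    rintro X Y a b hX hY g hg h2
    obtain ⟨u, hu, v, hv, rfl⟩ := Set.mem_mul.1 hg
    have h3 : u.2 * v.2 = 1 := h2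
    have h4 : (u.2).toList ++ (v.2).toList = [] := h3
    obtain ⟨h5, h6⟩ := List.append_eq_nil_iff.1 h4
    rw [Prod.fst_mul, hX u hu h5, hY v hv h6]
  have keyp : ∀ {X : Set (F × F)} {a : F}, (∀ g ∈ X, g.2 = 1 → g.1 = a) → ∀ n,
      (∀ g ∈ X ^ n, g.2 = 1 → g.1 = a ^ n) := by
    intro X a hX n
    induction n with
    | zero =>
      intro g hg _
      rw [pow_zero] at hg
      rw [Set.mem_one.1 hg]; rfl
    | succ n ih =>
      rw [pow_succ, pow_succ]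
      exact key ih hX
  have kL : ∀ c : Bool, ∀ g ∈ L (FreeMonoid.of c), g.2 = 1 → g.1 = FreeMonoid.of c := by
    intro c g hg h2
    simp only [L, Set.mem_insert_iff, Set.mem_singleton_iff] at hg
    rcases hg with rfl | rfl
    · rfl
    · exact absurd h2 (by simp)
  exact keyp (key (keyp (key (keyp (kL false) n) (keyp (kL true) n)) n)
    (key (kL false) (keyp (kL true) j))) q g hg h2

end Steps

end Pool.Agent.Work.MP_47bae8_lc
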