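import Pool.Agent.Work.MP_47bae8_lc.Shuf

set_option autoImplicit false

open scoped Pointwise

namespace Pool.Agent.Work.MP_47bae8_lc

/-- every element of the image of a free monoid is the image of a short word -/
lemma short {B M : Type*} [Monoid M] [Finite M] (f : FreeMonoid B →* M) :
    ∀ (n : ℕ) (w : List B), w.length ≤ n → ∃ w' : List B,
      f (FreeMonoid.ofList w') = f (FreeMonoid.ofList w) ∧ w'.length ≤ Nat.card M := by
  intro n
  induction n with
  | zero =>
    intro w hw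
    exact ⟨w, rfl, by omega⟩
  | succ n ih =>
    intro w hw
    by_cases h : w.length ≤ Nat.card M
    · exact ⟨w, rfl, h⟩
    · have : Fintype M := Fintype.ofFinite M
      rw [Nat.card_eq_fintype_card] at h
      obtain ⟨i, k, hik, he⟩ := Fintype.exists_ne_map_eq_of_card_lt
        (fun k : Fin (w.length + 1) => f (FreeMonoid.ofList (w.take k))) (by simp; omega)
      wlog hlt : i < k generalizing i k
      · exact this k i hik.symm he.symm (lt_of_le_of_ne (not_lt.1 hlt) hik.symm)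
      have hlt' : (i : ℕ) < k := hlt
      obtain ⟨w', h1, h2⟩ := ih (w.take i ++ w.drop k) (by
        simp only [List.length_append, List.length_take, List.length_drop]
        have := k.2
        omega)
      refine ⟨w', ?_, h2⟩
      rw [h1, FreeMonoid.ofList_append, map_mul]
      have he' : f (FreeMonoid.ofList (w.take i)) = f (FreeMonoid.ofList (w.take k)) := he
      rw [he', ← map_mul, ← FreeMonoid.ofList_append, List.take_append_drop]

lemma absorb_pow {M : Type*} [Monoid M] {c m : M} {q N : ℕ} (h : c * m ^ (q + 1) = c)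
    (hm : m ^ (N + 1) = m ^ N) : c * m = c := by
  have h1 : ∀ k, c * m ^ ((q + 1) * k) = c := by
    intro k
    induction k with
    | zero => simp
    | succ k ih => rw [mul_add, mul_one, pow_add, ← mul_assoc, ih, h]
  have h2 : N ≤ (q + 1) * N := Nat.le_mul_of_pos_left _ (by omega)
  calc c * m = c * m ^ ((q + 1) * N) * m := by rw [h1]
    _ = c * m ^ ((q + 1) * N) := absorb_right hm h2 c
    _ = c := h1 N

lemma no_false (l : List Bool) (h : false ∉ l) : FreeMonoid.ofList l = xx ^ l.length := by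
  induction l with
  | nil => rfl
  | cons c l ih =>
    cases c with
    | false => simp at h
    | true =>
      rw [FreeMonoid.ofList_cons, List.length_cons, pow_succ', ih (by simpa using h)]
      rfl

section Steps
variable {M₁ M₂ : Type*} [Monoid M₁] [Monoid M₂] {f₁ : F →* M₁} {f₂ : F →* M₂}

lemma f_tw (f₁ : F →* M₁) (j n : ℕ) :
    f₁ (tw j n) = (f₁ yy ^ n * f₁ xx ^ n) ^ n * f₁ yy * f₁ xx ^ j := by
  simp [tw, wd, mul_assoc]

lemma tw_mem (j n : ℕ) : (tw j n, (1 : F)) ∈ T j n := by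
  refine Set.mem_mul.2 ⟨(wd n ^ n, 1), pow_mem_left (wd_mem_left n) n, (yy * xx ^ j, 1), ?_, ?_⟩
  · refine Set.mem_mul.2 ⟨(yy, 1), by simp [L], (xx ^ j, 1), L_pow_left xx j, by simp⟩
  · simp [tw]

variable [Finite M₂]

/-- both halves are large on the left -/
lemma UU {N n s s' j a q : ℕ} (H : Hyp f₁ f₂ N) (hN : 1 ≤ N) (hs : s + s' = n) (hsN : N + 1 ≤ s)
    (hsN' : N + 1 ≤ s') (hc : Nat.card M₂ ≤ s) (hc' : Nat.card M₂ ≤ s')
    (hW : (f₁ yy ^ N * f₁ xx ^ N) ^ (N + 1) = (f₁ yy ^ N * f₁ xx ^ N) ^ N)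
    (hT : (f₁ (tw j n)) ^ (N + 1) = (f₁ (tw j n)) ^ N)
    {p x1 x2 e g' : F × F} (hp : p ∈ T j n ^ a) (hx1 : x1 ∈ W n ^ s) (hx2 : x2 ∈ W n ^ s')
    (he : e ∈ E j) (hg' : g' ∈ T j n ^ q)
    (hv : val f₁ f₂ (p * (x1 * x2 * e * g')) = val f₁ f₂ p)
    (hU1 : f₁ x1.1 = (f₁ yy ^ N * f₁ xx ^ N) ^ s) (hU2 : f₁ x2.1 = (f₁ yy ^ N * f₁ xx ^ N) ^ s') :
    ∃ w ∈ T j n ^ (a + q + 2), val f₁ f₂ w = val f₁ f₂ (p * (x1 * x2 * e * g')) := by
  set ε := (f₁ yy ^ N * f₁ xx ^ N) ^ N with hε
  have hεs : (f₁ yy ^ N * f₁ xx ^ N) ^ s = ε := pow_stab hW s (by omega)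
  have hεs' : (f₁ yy ^ N * f₁ xx ^ N) ^ s' = ε := pow_stab hW s' (by omega)
  have hεε : ε * ε = ε := by
    rw [hε, ← pow_add]; exact pow_stab hW _ (by omega)
  obtain ⟨N', rfl⟩ : ∃ N', N = N' + 1 := ⟨N - 1, by omega⟩
  have hεx : ε * f₁ xx = ε := by
    rw [hε, pow_succ (f₁ yy ^ (N' + 1) * f₁ xx ^ (N' + 1)), ← mul_assoc]
    exact absorb_right H.x1 le_rfl _
  have hyε : f₁ yy * ε = ε := by
    rw [hε, pow_succ' (f₁ yy ^ (N' + 1) * f₁ xx ^ (N' + 1)), mul_assoc]
    exact absorb_left H.y1 le_rfl _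
  have hεxj : ε * f₁ xx ^ j = ε := by
    clear_value ε
    induction j with
    | zero => simp
    | succ j ih =>
      rw [pow_succ, ← mul_assoc]
      have : ε * f₁ xx ^ j = ε := by
        clear ih hv hp hx1 hx2 he hg' hT
        induction j with
        | zero => simp
        | succ j ih => rw [pow_succ, ← mul_assoc, ih, hεx]
      rw [this, hεx]
  rw [hεs] at hU1
  rw [hεs'] at hU2
  have hwd : f₁ (wd n) = f₁ yy ^ (N' + 1) * f₁ xx ^ (N' + 1) := by
    simp only [wd, map_mul, map_pow]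
    rw [pow_stab H.y1 n (by omega), pow_stab H.x1 n (by omega)]
  have hg : x1 * x2 * e * g' ∈ T j n ^ (q + 1) := by
    have ht : x1 * x2 * e ∈ T j n := by
      rw [← T_eq hs]
      exact Set.mul_mem_mul (Set.mul_mem_mul hx1 hx2) he
    rw [pow_succ']
    exact Set.mul_mem_mul ht hg'
  have hv1 : f₁ p.1 * f₁ (x1 * x2 * e * g').1 = f₁ p.1 := by
    have := congrArg Prod.fst hv
    simpa [val] using this
  have hv2 : f₂ p.2 * f₂ (x1 * x2 * e * g').2 = f₂ p.2 := by
    have := congrArg Prod.snd hv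
    simpa [val] using this
  -- insertion between `x1` and `x2`
  have insert_mid : ∀ c ∈ W n ^ s' * E j * W n ^ s, ε * f₁ c.1 * ε = ε →
      f₂ p.2 * f₂ x1.2 * f₂ c.2 * f₂ (x2 * e * g').2 = f₂ p.2 →
      ∃ w ∈ T j n ^ (a + q + 2), val f₁ f₂ w = val f₁ f₂ (p * (x1 * x2 * e * g')) := by
    intro c hcm h1 h2
    refine ⟨p * x1 * c * (x2 * e * g'), ?_, ?_⟩
    · have : p * x1 * c * (x2 * e * g') ∈
          T j n ^ a * W n ^ s * (W n ^ s' * E j * W n ^ s) * (W n ^ s' * E j * T j n ^ q) :=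
        Set.mul_mem_mul (Set.mul_mem_mul (Set.mul_mem_mul hp hx1) hcm)
          (Set.mul_mem_mul (Set.mul_mem_mul hx2 he) hg')
      have e2 : T j n ^ a * W n ^ s * (W n ^ s' * E j * W n ^ s) * (W n ^ s' * E j * T j n ^ q) =
          T j n ^ (a + q + 2) := by
        calc T j n ^ a * W n ^ s * (W n ^ s' * E j * W n ^ s) * (W n ^ s' * E j * T j n ^ q)
            = T j n ^ a * (W n ^ s * W n ^ s' * E j) * (W n ^ s * W n ^ s' * E j) * T j n ^ q := by
              simp only [mul_assoc]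
          _ = _ := by
            rw [T_eq hs, ← pow_succ, ← pow_succ, ← pow_add]; congr 1; omega
      rw [← e2]; exact this
    · rw [hv]
      simp only [val, Prod.mk.injEq]
      constructor
      · have e3 : f₁ (p * x1 * c * (x2 * e * g')).1 =
            f₁ p.1 * (f₁ x1.1 * f₁ c.1 * f₁ x2.1) * (f₁ e.1 * f₁ g'.1) := by
          simp [mul_assoc]
        rw [e3, hU1, hU2, h1]
        have e4 : f₁ p.1 * f₁ (x1 * x2 * e * g').1 =
            f₁ p.1 * (f₁ x1.1 * f₁ x2.1) * (f₁ e.1 * f₁ g'.1) := by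
          simp [mul_assoc]
        rw [e4, hU1, hU2, hεε] at hv1
        exact hv1
      · simp only [Prod.snd_mul, map_mul] at h2 ⊢
        exact h2
  by_cases hE : (x1 * x2 * e * g').2 = 1
  · -- everything goes to the left
    have h3 := T_pow_left hg hE
    rw [h3, map_pow] at hv1
    have h4 : f₁ p.1 * f₁ (tw j n) = f₁ p.1 := absorb_pow hv1 hT
    refine ⟨p * (tw j n, 1) * (x1 * x2 * e * g'), ?_, ?_⟩
    · have : p * (tw j n, 1) * (x1 * x2 * e * g') ∈ T j n ^ a * T j n * T j n ^ (q + 1) :=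
        Set.mul_mem_mul (Set.mul_mem_mul hp (tw_mem j n)) hg
      rw [← pow_succ, ← pow_add] at this
      have e2 : a + 1 + (q + 1) = a + q + 2 := by omega
      rw [e2] at this
      exact this
    · have e8 : val f₁ f₂ (p * (tw j n, 1)) = val f₁ f₂ p := by
        simp [val, h4]
      rw [val_mul, e8, ← val_mul]
  · by_cases hy : false ∈ (x1 * x2 * e * g').2.toList
    · -- an occurrence of `y`
      have hy' : false ∈ ((x2 * e * g').2 * x1.2).toList := by
        simp only [Prod.snd_mul, FreeMonoid.toList_mul, List.mem_append] at hy ⊢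
        tauto
      obtain ⟨r₀, r₀', hr⟩ := List.mem_iff_append.1 hy'
      obtain ⟨r, hr1, hr2⟩ := short f₂ _ r₀ le_rfl
      obtain ⟨r', hr1', hr2'⟩ := short f₂ _ r₀' le_rfl
      obtain ⟨d, hd, hd2, hd1⟩ := extract (n := n) H (by omega) r s' (by omega)
      obtain ⟨d', hd', hd2', hd1'⟩ := extract (n := n) H (by omega) r' s (by omega)
      refine insert_mid (d * ((1, yy) * (xx ^ j, 1)) * d') ?_ ?_ ?_
      · refine Set.mul_mem_mul (Set.mul_mem_mul hd ?_) hd'
        exact Set.mul_mem_mul (by simp [L]) (L_pow_left xx j)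
      · have e5 : f₁ (d * ((1, yy) * (xx ^ j, 1)) * d').1 = f₁ d.1 * f₁ xx ^ j * f₁ d'.1 := by
          simp
        rw [e5, hd1, hd1', hεs, hεs']
        calc ε * (ε * f₁ xx ^ j * ε) * ε = (ε * ε) * f₁ xx ^ j * (ε * ε) := by
              simp only [mul_assoc]
          _ = ε := by rw [hεε, hεxj, hεε]
      · have e5 : f₂ (d * ((1, yy) * (xx ^ j, 1)) * d').2 = f₂ ((x2 * e * g').2 * x1.2) := by
          have e6 : (x2 * e * g').2 * x1.2 = FreeMonoid.ofList r₀ * (yy * FreeMonoid.ofList r₀') := by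
            have : ((x2 * e * g').2 * x1.2) = FreeMonoid.ofList (r₀ ++ false :: r₀') := by
              rw [← hr]; rfl
            rw [this]; rfl
          rw [e6]
          simp only [Prod.snd_mul, map_mul, hd2, hd2', hr1, hr1', mul_assoc]
          rw [map_one, one_mul]
        rw [e5, map_mul]
        have e7 : f₂ p.2 * f₂ x1.2 * f₂ (x2 * e * g').2 = f₂ p.2 := by
          simp only [Prod.snd_mul, map_mul] at hv2 ⊢
          simpa only [mul_assoc] using hv2
        calc f₂ p.2 * f₂ x1.2 * (f₂ (x2 * e * g').2 * f₂ x1.2) * f₂ (x2 * e * g').2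
            = (f₂ p.2 * f₂ x1.2 * f₂ (x2 * e * g').2) * f₂ x1.2 * f₂ (x2 * e * g').2 := by
              simp only [mul_assoc]
          _ = f₂ p.2 := by rw [e7, e7]
    · -- only `x`
      have h5 : (x1 * x2 * e * g').2 = xx ^ (x1 * x2 * e * g').2.toList.length :=
        no_false _ hy
      have h6 : f₂ p.2 * f₂ xx = f₂ p.2 := by
        rw [h5, map_pow] at hv2
        obtain ⟨m, hm⟩ : ∃ m, (x1 * x2 * e * g').2.toList.length = m + 1 := by
          refine ⟨(x1 * x2 * e * g').2.toList.length - 1, ?_⟩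
          have : (x1 * x2 * e * g').2.toList.length ≠ 0 := by
            intro h
            exact hE (List.eq_nil_of_length_eq_zero h)
          omega
        rw [hm] at hv2
        exact absorb_pow hv2 H.x2
      have h7 : ∀ k, f₂ p.2 * f₂ xx ^ k = f₂ p.2 := by
        intro k
        induction k with
        | zero => simp
        | succ k ih => rw [pow_succ, ← mul_assoc, ih, h6]
      have h8 : ∀ l : F, false ∉ l.toList → f₂ p.2 * f₂ l = f₂ p.2 := by
        intro l hl
        have := no_false l.toList hl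
        have h9 : l = xx ^ l.toList.length := this
        rw [h9, map_pow, h7]
      refine insert_mid ((wd n ^ s', 1) * ((yy, 1) * (1, xx ^ j)) * (wd n ^ s, 1)) ?_ ?_ ?_
      · refine Set.mul_mem_mul (Set.mul_mem_mul (pow_mem_left (wd_mem_left n) s') ?_)
          (pow_mem_left (wd_mem_left n) s)
        exact Set.mul_mem_mul (by simp [L]) (L_pow_right xx j)
      · have e5 : f₁ ((wd n ^ s', 1) * ((yy, 1) * (1, xx ^ j)) * (wd n ^ s, 1)).1 =
            f₁ (wd n) ^ s' * f₁ yy * f₁ (wd n) ^ s := by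
          simp
        rw [e5, hwd, hεs, hεs']
        calc ε * (ε * f₁ yy * ε) * ε = (ε * ε) * (f₁ yy * ε) * ε := by
              simp only [mul_assoc]
          _ = ε := by rw [hyε, hεε, hεε, hεε]
      · have hy1 : false ∉ x1.2.toList := by
          simp only [Prod.snd_mul, FreeMonoid.toList_mul, List.mem_append] at hy
          tauto
        have hy2 : false ∉ (x2 * e * g').2.toList := by
          simp only [Prod.snd_mul, FreeMonoid.toList_mul, List.mem_append] at hy ⊢
          tauto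
        have e5 : f₂ ((wd n ^ s', 1) * ((yy, 1) * (1, xx ^ j)) * (wd n ^ s, (1 : F))).2 =
            f₂ xx ^ j := by
          simp
        rw [e5, h8 _ hy1, h7, h8 _ hy2]

/-- swapping the two components -/
lemma swap_mem {X Y : Set (F × F)} (hX : ∀ g ∈ X, g.swap ∈ X) (hY : ∀ g ∈ Y, g.swap ∈ Y) :
    ∀ g ∈ X * Y, g.swap ∈ X * Y := by
  intro g hg
  obtain ⟨u, hu, v, hv, rfl⟩ := Set.mem_mul.1 hg
  exact Set.mem_mul.2 ⟨_, hX u hu, _, hY v hv, by simp⟩

lemma swap_mem_pow {X : Set (F × F)} (hX : ∀ g ∈ X, g.swap ∈ X) (n : ℕ) :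
    ∀ g ∈ X ^ n, g.swap ∈ X ^ n := by
  induction n with
  | zero => 
    intro g hg
    rw [pow_zero] at hg ⊢
    rw [Set.mem_one.1 hg]
    simp [Set.mem_one]
  | succ n ih =>
    rw [pow_succ]
    exact swap_mem ih hX

lemma swap_mem_L (c : F) : ∀ g ∈ L c, g.swap ∈ L c := by
  intro g hg
  simp only [L, Set.mem_insert_iff, Set.mem_singleton_iff] at hg ⊢
  rcases hg with rfl | rfl <;> simp

lemma swap_mem_W (n : ℕ) : ∀ g ∈ W n, g.swap ∈ W n :=
  swap_mem (swap_mem_pow (swap_mem_L _) n) (swap_mem_pow (swap_mem_L _) n)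

lemma swap_mem_E (j : ℕ) : ∀ g ∈ E j, g.swap ∈ E j :=
  swap_mem (swap_mem_L _) (swap_mem_pow (swap_mem_L _) j)

lemma swap_mem_T (j n : ℕ) : ∀ g ∈ T j n, g.swap ∈ T j n :=
  swap_mem (swap_mem_pow (swap_mem_W _) n) (swap_mem_E _)

lemma swap_mul (a b : F × F) : (a * b).swap = a.swap * b.swap := rfl

omit [Finite M₂] in
lemma val_swap (g : F × F) : val f₂ f₁ g.swap = (val f₁ f₂ g).swap := rfl

end Steps

end Pool.Agent.Work.MP_47bae8_lc
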