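import Pool.Agent.Work.MP_47bae8_lc.Shuf2

set_option autoImplicit false

open scoped Pointwise

namespace Pool.Agent.Work.MP_47bae8_lc

section Steps
variable {M₁ M₂ : Type*} [Monoid M₁] [Monoid M₂] {f₁ : F →* M₁} {f₂ : F →* M₂}

/-- all numerical hypotheses needed for the main step -/
structure Big (f₁ : F →* M₁) (f₂ : F →* M₂) (N s s' n j : ℕ) : Prop where
  H : Hyp f₁ f₂ N
  hN : 1 ≤ N
  hs : s + s' = n
  hsN : N + 1 ≤ s
  hsN' : N + 1 ≤ s'
  c1 : Nat.card M₁ ≤ s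
  c1' : Nat.card M₁ ≤ s'
  c2 : Nat.card M₂ ≤ s
  c2' : Nat.card M₂ ≤ s'
  hW1 : (f₁ yy ^ N * f₁ xx ^ N) ^ (N + 1) = (f₁ yy ^ N * f₁ xx ^ N) ^ N
  hW2 : (f₂ yy ^ N * f₂ xx ^ N) ^ (N + 1) = (f₂ yy ^ N * f₂ xx ^ N) ^ N
  hT1 : (f₁ (tw j n)) ^ (N + 1) = (f₁ (tw j n)) ^ N
  hT2 : (f₂ (tw j n)) ^ (N + 1) = (f₂ (tw j n)) ^ N

lemma Big.swap {N s s' n j : ℕ} (h : Big f₁ f₂ N s s' n j) : Big f₂ f₁ N s s' n j :=
  ⟨⟨h.H.x2, h.H.y2, h.H.x1, h.H.y1⟩, h.hN, h.hs, h.hsN, h.hsN', h.c2, h.c2', h.c1, h.c1', h.hW2,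
    h.hW1, h.hT2, h.hT1⟩

lemma endx {M : Type*} [Monoid M] {N : ℕ} (α β : M) (m : ℕ) (hα : α ^ (N + 1) = α ^ N)
    (hm : 1 ≤ m) : (β ^ N * α ^ N) ^ m * α = (β ^ N * α ^ N) ^ m := by
  obtain ⟨m', rfl⟩ : ∃ m', m = m' + 1 := ⟨m - 1, by omega⟩
  rw [pow_succ, ← mul_assoc]
  exact absorb_right hα le_rfl _

lemma endy {M : Type*} [Monoid M] {N : ℕ} (α β : M) (m : ℕ) (hβ : β ^ (N + 1) = β ^ N)
    (hm : 1 ≤ m) : β * (β ^ N * α ^ N) ^ m = (β ^ N * α ^ N) ^ m := by
  obtain ⟨m', rfl⟩ : ∃ m', m = m' + 1 := ⟨m - 1, by omega⟩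
  rw [pow_succ', mul_assoc]
  exact absorb_left hβ le_rfl _

variable [Finite M₁] [Finite M₂]

lemma main_step {N s s' n j : ℕ} (B : Big f₁ f₂ N s s' n j) {a q : ℕ} {p g : F × F}
    (hp : p ∈ T j n ^ a) (hg : g ∈ T j n ^ (q + 1)) (hv : val f₁ f₂ (p * g) = val f₁ f₂ p) :
    ∃ w ∈ T j n ^ (a + q + 2), val f₁ f₂ w = val f₁ f₂ (p * g) := by
  have hsN := B.hsN
  have hsN' := B.hsN'
  have hs := B.hs
  have hN := B.hN
  have hg0 := hg
  rw [pow_succ'] at hg
  obtain ⟨t, ht, g', hg', rfl⟩ := Set.mem_mul.1 hg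
  rw [← T_eq B.hs] at ht
  obtain ⟨x12, hx12, e, he, rfl⟩ := Set.mem_mul.1 ht
  obtain ⟨x1, hx1, x2, hx2, rfl⟩ := Set.mem_mul.1 hx12
  -- two blocks produced by insertion
  have two : ∀ w, w ∈ T j n ^ a * (W n ^ s * W n ^ s' * E j) * (W n ^ s * W n ^ s' * E j) *
      T j n ^ q → w ∈ T j n ^ (a + q + 2) := by
    intro w hw
    rw [T_eq B.hs, ← pow_succ, ← pow_succ, ← pow_add] at hw
    have e2 : a + 1 + 1 + q = a + q + 2 := by omega
    rwa [e2] at hw
  -- insertion in the middle of `x1` or `x2` or between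
  have exp1 : (∀ R ∈ GG, ∃ w ∈ W n ^ s * R * W n ^ s, val f₁ f₂ w = val f₁ f₂ x1) →
      ∃ w ∈ T j n ^ (a + q + 2), val f₁ f₂ w = val f₁ f₂ (p * (x1 * x2 * e * g')) := by
    intro h
    obtain ⟨w, hw, hwv⟩ := h (W n ^ s' * E j) (mul_mem (pow_mem (W_mem n) _) (E_mem j))
    refine ⟨p * w * x2 * e * g', two _ ?_, ?_⟩
    · have := Set.mul_mem_mul (Set.mul_mem_mul (Set.mul_mem_mul (Set.mul_mem_mul hp hw) hx2) he) hg'
      convert this using 1
      simp only [mul_assoc]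
    · simp only [val_mul, hwv, mul_assoc]
  have exp2 : (∀ R ∈ GG, ∃ w ∈ W n ^ s' * R * W n ^ s', val f₁ f₂ w = val f₁ f₂ x2) →
      ∃ w ∈ T j n ^ (a + q + 2), val f₁ f₂ w = val f₁ f₂ (p * (x1 * x2 * e * g')) := by
    intro h
    obtain ⟨w, hw, hwv⟩ := h (E j * W n ^ s) (mul_mem (E_mem j) (pow_mem (W_mem n) _))
    refine ⟨p * x1 * w * e * g', two _ ?_, ?_⟩
    · have := Set.mul_mem_mul (Set.mul_mem_mul (Set.mul_mem_mul (Set.mul_mem_mul hp hx1) hw) he) hg'
      convert this using 1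
      simp only [mul_assoc]
    · simp only [val_mul, hwv, mul_assoc]
  have exp3 : Abs f₁ f₂ x1 x2 →
      ∃ w ∈ T j n ^ (a + q + 2), val f₁ f₂ w = val f₁ f₂ (p * (x1 * x2 * e * g')) := by
    intro h
    obtain ⟨w, hw, hwv⟩ := h.insert (C := W n ^ s' * E j * W n ^ s) hx1 hx2
      (mul_mem (mul_mem (pow_mem (W_mem n) _) (E_mem j)) (pow_mem (W_mem n) _))
    refine ⟨p * w * e * g', two _ ?_, ?_⟩
    · have := Set.mul_mem_mul (Set.mul_mem_mul (Set.mul_mem_mul hp hw) he) hg'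
      convert this using 1
      simp only [mul_assoc]
    · rw [val_mul] at hwv
      simp only [val_mul, hwv, mul_assoc]
  rcases dichotomy B.H (n := n) (by omega) s (by omega) x1 hx1 with
    ⟨k, l, Q₁, Q₂, y, z, hQ, hkl, g1, g2, hy, hz, hxyz, hA⟩ | hU1 | hV1
  · exact exp1 (expand hQ hkl g1 g2 hy hz hxyz hA)
  · rcases dichotomy B.H (n := n) (by omega) s' (by omega) x2 hx2 with
      ⟨k, l, Q₁, Q₂, y, z, hQ, hkl, g1, g2, hy, hz, hxyz, hA⟩ | hU2 | hV2
    · exact exp2 (expand hQ hkl g1 g2 hy hz hxyz hA)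
    · exact UU B.H B.hN B.hs B.hsN B.hsN' B.c2 B.c2' B.hW1 B.hT1 hp hx1 hx2 he hg' hv hU1 hU2
    · apply exp3
      apply abs_xy
      · rw [hU1]; exact endx _ _ _ B.H.x1 (by omega)
      · rw [hV2]; exact endy _ _ _ B.H.y2 (by omega)
  · rcases dichotomy B.H (n := n) (by omega) s' (by omega) x2 hx2 with
      ⟨k, l, Q₁, Q₂, y, z, hQ, hkl, g1, g2, hy, hz, hxyz, hA⟩ | hU2 | hV2
    · exact exp2 (expand hQ hkl g1 g2 hy hz hxyz hA)
    · apply exp3
      apply abs_yx'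
      · rw [hV1]; exact endx _ _ _ B.H.x2 (by omega)
      · rw [hU2]; exact endy _ _ _ B.H.y1 (by omega)
    · -- the symmetric case
      have B' := B.swap
      obtain ⟨w, hw, hwv⟩ := UU (p := p.swap) (x1 := x1.swap) (x2 := x2.swap) (e := e.swap)
        (g' := g'.swap) (a := a) (q := q) B'.H B'.hN B'.hs B'.hsN B'.hsN' B'.c2 B'.c2' B'.hW1 B'.hT1
        (swap_mem_pow (swap_mem_T j n) a _ hp) (swap_mem_pow (swap_mem_W n) s _ hx1)
        (swap_mem_pow (swap_mem_W n) s' _ hx2) (swap_mem_E j _ he)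
        (swap_mem_pow (swap_mem_T j n) q _ hg')
        (by
          have := congrArg Prod.swap hv
          exact this) hV1 hV2
      refine ⟨w.swap, swap_mem_pow (swap_mem_T j n) _ _ hw, ?_⟩
      have h2 := congrArg Prod.swap hwv
      exact h2

/-- pigeonhole: a long product has a factor which is absorbed by its prefix -/
lemma pigeon {X : Set (F × F)} : ∀ i, ∀ x ∈ X ^ i, Nat.card (M₁ × M₂) ≤ i →
    ∃ a q b p g r, a + (q + 1) + b = i ∧ p ∈ X ^ a ∧ g ∈ X ^ (q + 1) ∧ r ∈ X ^ b ∧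
      x = p * g * r ∧ val f₁ f₂ (p * g) = val f₁ f₂ p := by
  intro i x hx hi
  -- sequence of blocks
  have seq : ∀ i, ∀ x ∈ X ^ i, ∃ P : ℕ → ℕ → F × F, P 0 i = x ∧
      (∀ a b, a ≤ b → b ≤ i → P a b ∈ X ^ (b - a)) ∧
      (∀ a b c, a ≤ b → b ≤ c → c ≤ i → P a b * P b c = P a c) := by
    intro i
    induction i with
    | zero =>
      intro x hx
      rw [pow_zero] at hx
      refine ⟨fun _ _ => 1, (Set.mem_one.1 hx).symm, ?_, ?_⟩
      · intro a b hab hb
        obtain rfl : b = 0 := by omega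
        simp
      · intro a b c _ _ _; simp
    | succ i ih =>
      intro x hx
      rw [pow_succ] at hx
      obtain ⟨y, hy, t, ht, rfl⟩ := Set.mem_mul.1 hx
      obtain ⟨P, hP0, hP1, hP2⟩ := ih y hy
      refine ⟨fun a b => if b = i + 1 then (if a = i + 1 then 1 else P a i * t) else P a b,
        by simp [hP0], ?_, ?_⟩
      · intro a b hab hb
        by_cases hb' : b = i + 1
        · subst hb'
          by_cases ha : a = i + 1
          · simp [ha]
          · simp only [if_true, if_neg ha]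
            have : i + 1 - a = (i - a) + 1 := by omega
            rw [this, pow_succ]
            exact Set.mul_mem_mul (hP1 a i (by omega) le_rfl) ht
        · simp only [if_neg hb']
          exact hP1 a b hab (by omega)
      · intro a b c hab hbc hc
        by_cases hc' : c = i + 1
        · subst hc'
          by_cases hb' : b = i + 1
          · subst hb'
            by_cases ha : a = i + 1
            · simp [ha]
            · simp [ha]
          · have ha : a ≠ i + 1 := by omega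
            simp only [if_true, if_neg hb', if_neg ha]
            rw [← mul_assoc, hP2 a b i hab (by omega) le_rfl]
        · have hb' : b ≠ i + 1 := by omega
          simp only [if_neg hc', if_neg hb']
          exact hP2 a b c hab hbc (by omega)
  obtain ⟨P, hP0, hP1, hP2⟩ := seq i x hx
  have : Fintype (M₁ × M₂) := Fintype.ofFinite _
  rw [Nat.card_eq_fintype_card] at hi
  obtain ⟨k, l, hkl, he⟩ := Fintype.exists_ne_map_eq_of_card_lt
    (fun k : Fin (i + 1) => val f₁ f₂ (P 0 k)) (by simp only [Fintype.card_fin]; omega)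
  wlog hlt : k < l generalizing k l
  · exact this l k hkl.symm he.symm (lt_of_le_of_ne (not_lt.1 hlt) hkl.symm)
  have hlt' : (k : ℕ) < l := hlt
  have hl := l.2
  refine ⟨k, l - k - 1, i - l, P 0 k, P k l, P l i, by omega, ?_, ?_, ?_, ?_, ?_⟩
  · exact hP1 0 k (by omega) (by omega)
  · have := hP1 k l (by omega) (by omega)
    have e : (l : ℕ) - k = l - k - 1 + 1 := by omega
    rwa [e] at this
  · exact hP1 l i (by omega) (by omega)
  · rw [hP2 0 k l (by omega) (by omega) (by omega), hP2 0 l i (by omega) (by omega) le_rfl, hP0]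
  · rw [hP2 0 k l (by omega) (by omega) (by omega)]
    exact he.symm

/-- H3 -/
lemma step_T {N s s' n j : ℕ} (B : Big f₁ f₂ N s s' n j) {i : ℕ} (hi : Nat.card (M₁ × M₂) ≤ i)
    {x : F × F} (hx : x ∈ T j n ^ i) : ∃ w ∈ T j n ^ (i + 1), val f₁ f₂ w = val f₁ f₂ x := by
  obtain ⟨a, q, b, p, g, r, hab, hp, hg, hr, rfl, hv⟩ := pigeon (f₁ := f₁) (f₂ := f₂) i x hx hi
  obtain ⟨w, hw, hwv⟩ := main_step B hp hg hv
  refine ⟨w * r, ?_, ?_⟩
  · have : w * r ∈ T j n ^ (a + q + 2) * T j n ^ b := Set.mul_mem_mul hw hr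
    rw [← pow_add] at this
    have e : a + q + 2 + b = i + 1 := by omega
    rwa [e] at this
  · rw [val_mul, hwv, ← val_mul]

end Steps

end Pool.Agent.Work.MP_47bae8_lc
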