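import Pool.Agent.Work.MP_47bae8_lc.Shuf3

set_option autoImplicit false

open scoped Pointwise

namespace Pool.Agent.Work.MP_47bae8_lc

lemma chain {S : Type*} [Finite S] (f : ℕ → Set S) (i₀ : ℕ) (h : ∀ i, i₀ ≤ i → f i ⊆ f (i + 1)) :
    ∃ N, f (N + 1) = f N := by
  let g : ℕ →o Set S := ⟨fun i => f (i₀ + i), monotone_nat_of_le_succ (fun i => by
    have := h (i₀ + i) (by omega)
    rw [← add_assoc]; exact this)⟩
  obtain ⟨n, hn⟩ := WellFoundedGT.monotone_chain_condition g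
  refine ⟨i₀ + n, ?_⟩
  have := hn (n + 1) (by omega)
  exact this.symm

section
variable {M₁ M₂ : Type*} [Monoid M₁] [Monoid M₂]

/-- the value homomorphism -/
def vh (f₁ : F →* M₁) (f₂ : F →* M₂) : F × F →* M₁ × M₂ := f₁.prodMap f₂

lemma vh_apply (f₁ : F →* M₁) (f₂ : F →* M₂) (p : F × F) : vh f₁ f₂ p = val f₁ f₂ p := rfl

/-- the image of a set of distributions -/
def Ph (f₁ : F →* M₁) (f₂ : F →* M₂) (X : Set (F × F)) : Set (M₁ × M₂) := vh f₁ f₂ '' X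

lemma Ph_mul (f₁ : F →* M₁) (f₂ : F →* M₂) (X Y : Set (F × F)) :
    Ph f₁ f₂ (X * Y) = Ph f₁ f₂ X * Ph f₁ f₂ Y := Set.image_mul _

lemma Ph_pow (f₁ : F →* M₁) (f₂ : F →* M₂) (X : Set (F × F)) (n : ℕ) :
    Ph f₁ f₂ (X ^ n) = Ph f₁ f₂ X ^ n := Set.image_pow _ _ _

lemma Ph_chain [Finite M₁] [Finite M₂] (f₁ : F →* M₁) (f₂ : F →* M₂) (X : Set (F × F)) (i₀ : ℕ)
    (h : ∀ i, i₀ ≤ i → ∀ x ∈ X ^ i, ∃ w ∈ X ^ (i + 1), val f₁ f₂ w = val f₁ f₂ x) :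
    ∃ N, Ph f₁ f₂ X ^ (N + 1) = Ph f₁ f₂ X ^ N := by
  obtain ⟨N, hN⟩ := chain (fun i => Ph f₁ f₂ (X ^ i)) i₀ (by
    rintro i hi _ ⟨x, hx, rfl⟩
    obtain ⟨w, hw, hv⟩ := h i hi x hx
    exact ⟨w, hw, hv⟩)
  refine ⟨N, ?_⟩
  rw [← Ph_pow, ← Ph_pow]
  exact hN

/-- the image of a letter under the shuffle morphism -/
def sl (a : M₁) (b : M₂) : Set (M₁ × M₂) := {(a, 1), (1, b)}

lemma Ph_L (f₁ : F →* M₁) (f₂ : F →* M₂) (c : F) : Ph f₁ f₂ (L c) = sl (f₁ c) (f₂ c) := by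
  simp [Ph, L, sl, Set.image_pair, vh_apply, val]

/-- the homomorphism given by two elements -/
def lft {M : Type*} [Monoid M] (α β : M) : F →* M := FreeMonoid.lift (fun b => if b then α else β)

@[simp] lemma lft_xx {M : Type*} [Monoid M] (α β : M) : lft α β xx = α := by simp [lft, xx]
@[simp] lemma lft_yy {M : Type*} [Monoid M] (α β : M) : lft α β yy = β := by simp [lft, yy]

/-- `Q` is preserved by the shuffle construction -/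
lemma Q_shuffle [Finite M₁] [Finite M₂] {j : ℕ} {α₁ β₁ : M₁} {α₂ β₂ : M₂} (h₁ : Q j α₁ β₁)
    (h₂ : Q j α₂ β₂) : Q j (sl α₁ α₂) (sl β₁ β₂) := by
  obtain ⟨N₁, h₁⟩ := h₁
  obtain ⟨N₂, h₂⟩ := h₂
  set N := max N₁ N₂ + 1 with hN
  have h₁' := Q_mono h₁ (N' := N) (by omega)
  have h₂' := Q_mono h₂ (N' := N) (by omega)
  set f₁ : F →* M₁ := lft α₁ β₁ with hf₁
  set f₂ : F →* M₂ := lft α₂ β₂ with hf₂
  have e1 : f₁ xx = α₁ := lft_xx _ _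
  have e2 : f₁ yy = β₁ := lft_yy _ _
  have e3 : f₂ xx = α₂ := lft_xx _ _
  have e4 : f₂ yy = β₂ := lft_yy _ _
  have H : Hyp f₁ f₂ N := by
    refine ⟨?_, ?_, ?_, ?_⟩
    · rw [e1]; exact (h₁' N le_rfl).1
    · rw [e2]; exact (h₁' N le_rfl).2.1
    · rw [e3]; exact (h₂' N le_rfl).1
    · rw [e4]; exact (h₂' N le_rfl).2.1
  have ex : sl α₁ α₂ = Ph f₁ f₂ (L xx) := by rw [Ph_L, e1, e3]
  have ey : sl β₁ β₂ = Ph f₁ f₂ (L yy) := by rw [Ph_L, e2, e4]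
  obtain ⟨A, hA⟩ := Ph_chain f₁ f₂ (L xx) (2 * N) (fun i hi x hx => step_letter H.x1 H.x2 hi hx)
  obtain ⟨B, hB⟩ := Ph_chain f₁ f₂ (L yy) (2 * N) (fun i hi x hx => step_letter H.y1 H.y2 hi hx)
  rw [ex, ey]
  refine Q_of (N₁ := max A B) (pow_stab' hA (by omega) (by omega))
    (pow_stab' hB (by omega) (by omega)) ⟨2 * N, fun n hn => ?_⟩
    ⟨2 * (N + 1 + Nat.card M₁ + Nat.card M₂), fun n hn => ?_⟩
  · have eW : Ph f₁ f₂ (L yy) ^ n * Ph f₁ f₂ (L xx) ^ n = Ph f₁ f₂ (W n) := by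
      rw [W, Ph_mul, Ph_pow, Ph_pow]
    rw [eW]
    refine Ph_chain f₁ f₂ (W n) N (fun i hi x hx => step_W H hn hi (by omega) ?_ ?_ hx)
    · rw [e1, e2]; exact (h₁' n (by omega)).2.2.1
    · rw [e3, e4]; exact (h₂' n (by omega)).2.2.1
  · have eT : (Ph f₁ f₂ (L yy) ^ n * Ph f₁ f₂ (L xx) ^ n) ^ n * Ph f₁ f₂ (L yy) *
        Ph f₁ f₂ (L xx) ^ j = Ph f₁ f₂ (T j n) := by
      rw [T, E, W]
      simp only [Ph_mul, Ph_pow, mul_assoc]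
    rw [eT]
    refine Ph_chain f₁ f₂ (T j n) (Nat.card (M₁ × M₂)) (fun i hi x hx => step_T (N := N)
      (s := n / 2) (s' := n - n / 2) ?_ hi hx)
    refine ⟨H, by omega, by omega, by omega, by omega, by omega, by omega, by omega, by omega,
      ?_, ?_, ?_, ?_⟩
    · rw [e1, e2]; exact (h₁' N le_rfl).2.2.1
    · rw [e3, e4]; exact (h₂' N le_rfl).2.2.1
    · rw [f_tw, e1, e2]; exact (h₁' n (by omega)).2.2.2
    · rw [f_tw, e3, e4]; exact (h₂' n (by omega)).2.2.2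

end

end Pool.Agent.Work.MP_47bae8_lc
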